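import Mathlib

/-!
# The least common denominator of rational numbers
-/

set_option autoImplicit false

namespace Run7.h309.JP

variable {r : ℕ}

/-- integral combinations of `1` and the `s j` -/
def combHom (s : Fin r → ℚ) : ℤ × (Fin r → ℤ) →+ ℚ where
  toFun p := p.1 + ∑ j, p.2 j * s j
  map_zero' := by simp
  map_add' p q := by
    simp only [Prod.fst_add, Prod.snd_add, Pi.add_apply, Int.cast_add, add_mul, Finset.sum_add_distrib]
    ring

lemma one_mem_comb (s : Fin r → ℚ) : (1 : ℚ) ∈ (combHom s).range := ⟨(1, 0), by simp [combHom]⟩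

lemma s_mem_comb (s : Fin r → ℚ) (j : Fin r) : s j ∈ (combHom s).range := by
  classical
  refine ⟨(0, Pi.single j 1), ?_⟩
  show ((0 : ℤ) : ℚ) + ∑ i, ((Pi.single j 1 : Fin r → ℤ) i : ℚ) * s i = s j
  rw [Int.cast_zero, zero_add, Finset.sum_eq_single j]
  · simp
  · intro i _ hi
    rw [Pi.single_eq_of_ne hi, Int.cast_zero, zero_mul]
  · intro h
    exact absurd (Finset.mem_univ _) h

lemma den_mem_comb (s : Fin r → ℚ) (j : Fin r) : (1 : ℚ) / (s j).den ∈ (combHom s).range := by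
  have h1 : IsCoprime (s j).num ((s j).den : ℤ) := by
    rw [Int.isCoprime_iff_gcd_eq_one]
    exact (s j).reduced
  obtain ⟨u, w, h⟩ := h1
  have hd : ((s j).den : ℚ) ≠ 0 := by exact_mod_cast (s j).den_nz
  have h2 : (1 : ℚ) / (s j).den = u • s j + w • (1 : ℚ) := by
    have h3 : s j * (s j).den = (s j).num := Rat.mul_den_eq_num (s j)
    have h4 : (u : ℚ) * (s j).num + w * (s j).den = 1 := by exact_mod_cast h
    rw [div_eq_iff hd, zsmul_eq_mul, zsmul_eq_mul]
    linear_combination -h4 - u * h3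
  rw [h2]
  exact add_mem (zsmul_mem (s_mem_comb s j) u) (zsmul_mem (one_mem_comb s) w)

lemma lcm_mem_comb (S : AddSubgroup ℚ) {M N : ℕ} (hM : 0 < M) (hN : 0 < N) (h1 : (1 : ℚ) / M ∈ S) (h2 : (1 : ℚ) / N ∈ S) :
    (1 : ℚ) / (Nat.lcm M N : ℕ) ∈ S := by
  obtain ⟨m, n, hmn, hm, hn⟩ := Nat.exists_coprime M N
  set g := Nat.gcd M N with hg
  have hg0 : 0 < g := Nat.gcd_pos_of_pos_left _ hM
  have hm0 : 0 < m := Nat.pos_of_mul_pos_right (b := g) (by rw [← hm]; exact hM)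
  have hn0 : 0 < n := Nat.pos_of_mul_pos_right (b := g) (by rw [← hn]; exact hN)
  have hl : Nat.lcm M N = m * n * g := by
    have h3 := Nat.gcd_mul_lcm M N
    rw [← hg] at h3
    refine Nat.eq_of_mul_eq_mul_left hg0 ?_
    rw [h3]
    calc M * N = (m * g) * (n * g) := by rw [← hm, ← hn]
      _ = g * (m * n * g) := by ring
  obtain ⟨u, w, h⟩ := (Nat.isCoprime_iff_coprime.2 hmn)
  have h3 : (1 : ℚ) / (Nat.lcm M N : ℕ) = u • ((1 : ℚ) / N) + w • ((1 : ℚ) / M) := by
    have h4 : (u : ℚ) * m + w * n = 1 := by exact_mod_cast h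
    have hMq : (M : ℚ) = m * g := by
      rw [hm]
      push_cast
      rfl
    have hNq : (N : ℚ) = n * g := by
      rw [hn]
      push_cast
      rfl
    have hmq : (m : ℚ) ≠ 0 := by exact_mod_cast hm0.ne'
    have hnq : (n : ℚ) ≠ 0 := by exact_mod_cast hn0.ne'
    have hgq : (g : ℚ) ≠ 0 := by exact_mod_cast hg0.ne'
    rw [hl, zsmul_eq_mul, zsmul_eq_mul, hMq, hNq]
    push_cast
    field_simp
    linear_combination -h4
  rw [h3]
  exact add_mem (zsmul_mem h2 u) (zsmul_mem h1 w)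

/-- the least common denominator -/
def lcd (s : Fin r → ℚ) : ℕ := Finset.univ.lcm fun j => (s j).den

lemma lcd_pos (s : Fin r → ℚ) : 0 < lcd s := by
  refine Nat.pos_of_ne_zero ?_
  unfold lcd
  rw [Ne, Finset.lcm_eq_zero_iff]
  rintro ⟨j, -, hj⟩
  exact (s j).den_nz hj

lemma den_dvd_lcd (s : Fin r → ℚ) (j : Fin r) : (s j).den ∣ lcd s := Finset.dvd_lcm (Finset.mem_univ j)

lemma lcd_int (s : Fin r → ℚ) (j : Fin r) : ∃ e : ℤ, (e : ℚ) = lcd s * s j := by
  obtain ⟨c, hc⟩ := den_dvd_lcd s j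
  refine ⟨c * (s j).num, ?_⟩
  rw [hc]
  push_cast
  rw [← Rat.mul_den_eq_num (s j)]
  ring

lemma lcd_mem (s : Fin r → ℚ) : (1 : ℚ) / lcd s ∈ (combHom s).range := by
  classical
  have key : ∀ F : Finset (Fin r), 0 < F.lcm (fun j => (s j).den) ∧
      (1 : ℚ) / (F.lcm fun j => (s j).den : ℕ) ∈ (combHom s).range := by
    intro F
    induction F using Finset.induction_on with
    | empty =>
      refine ⟨by simp, ?_⟩
      rw [Finset.lcm_empty, Nat.cast_one, div_one]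
      exact one_mem_comb s
    | insert j F hj ih =>
      rw [Finset.lcm_insert]
      exact ⟨Nat.lcm_pos (s j).den_pos ih.1, lcm_mem_comb _ (s j).den_pos ih.1 (den_mem_comb s j) ih.2⟩
  exact (key Finset.univ).2

lemma lcd_comb (s : Fin r → ℚ) : ∃ (a : Fin r → ℕ) (B : ℤ), (B : ℚ) - ∑ j, a j * s j = 1 / lcd s := by
  obtain ⟨⟨b, a⟩, h⟩ := lcd_mem s
  choose e he using lcd_int s
  have hM := lcd_pos s
  have h' : (b : ℚ) + ∑ j, a j * s j = 1 / lcd s := h
  -- make the coefficients nonpositive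
  refine ⟨fun j => (-a j + (lcd s : ℤ) * |a j|).toNat, b + ∑ j, e j * |a j|, ?_⟩
  have h1 : ∀ j, (((-a j + (lcd s : ℤ) * |a j|).toNat : ℕ) : ℚ) = -a j + lcd s * |a j| := by
    intro j
    have h2 : 0 ≤ -a j + (lcd s : ℤ) * |a j| := by
      have h3 : a j ≤ |a j| := le_abs_self _
      have h4 : (1 : ℤ) ≤ lcd s := by exact_mod_cast hM
      nlinarith [abs_nonneg (a j)]
    have h3 := Int.toNat_of_nonneg h2
    calc (((-a j + (lcd s : ℤ) * |a j|).toNat : ℕ) : ℚ) = (((-a j + (lcd s : ℤ) * |a j|).toNat : ℤ) : ℚ) := by push_cast; rfl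
      _ = ((-a j + (lcd s : ℤ) * |a j| : ℤ) : ℚ) := by rw [h3]
      _ = _ := by push_cast; rfl
  rw [← h']
  push_cast
  have h2 : ∀ j, (((-a j + (lcd s : ℤ) * |a j|).toNat : ℕ) : ℚ) * s j = -(a j * s j) + e j * |(a j : ℚ)| := by
    intro j
    rw [h1, he]
    push_cast
    ring
  simp only [h2, Finset.sum_add_distrib, Finset.sum_neg_distrib]
  ring

end Run7.h309.JP
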