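import Pool.Agent.Run7.h309.JP.One

/-!
# Joint hypergeometric families at all points of number fields
-/

set_option autoImplicit false
set_option linter.unusedSectionVars false
set_option linter.unusedVariables false

open Filter Topology Matrix NumberField

namespace Run7.h309.JP

open Pool.Agent.Y119.HY (Am Jm cm E Hf Hc Yf)
open Pool.Agent.Run7.h225.HG
open Run7.h893.HO
open Pool.Agent.Y890.MV
open Pool.Agent.Y124 (Cov)
open Pool.Agent (Y120.HtLe)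

/-! ### general lemmas -/

/-- reindexing of coverings -/
lemma cov_reindex {X X' : Type} (ρ : X → X') (hρ : Function.Injective ρ) {D m : ℕ} {S : Set (X → ℂ)} (h : Cov D m S)
    {S' : Set (X' → ℂ)} (hS : ∀ x ∈ S', (fun i => x (ρ i)) ∈ S) : Cov D m S' := by
  classical
  obtain ⟨Φ, h1, h2, h3⟩ := h
  refine ⟨Φ.image (MvPolynomial.rename ρ), Finset.card_image_le.trans h1, ?_, fun x hx => ?_⟩
  · intro P hP
    obtain ⟨P', hP', rfl⟩ := Finset.mem_image.1 hP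
    refine ⟨?_, (MvPolynomial.totalDegree_rename_le ρ P').trans (h2 P' hP').2⟩
    rw [Ne, (MvPolynomial.rename_injective ρ hρ).eq_iff' (map_zero _)]
    exact (h2 P' hP').1
  · obtain ⟨P, hP, h4⟩ := h3 _ (hS x hx)
    refine ⟨MvPolynomial.rename ρ P, Finset.mem_image_of_mem _ hP, ?_⟩
    rw [MvPolynomial.eval_rename]
    exact h4

/-- a polynomial of degree at most `w` in each variable -/
lemma eval_box {σ : Type} [Fintype σ] [DecidableEq σ] (P : MvPolynomial σ ℂ) (w : ℕ) (hP : ∀ v, P.degreeOf v ≤ w)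
    (Y : σ → ℂ) : MvPolynomial.eval Y P =
      ∑ l : σ → Fin (w + 1), P.coeff (Finsupp.equivFunOnFinite.symm fun v => (l v : ℕ)) * ∏ v, Y v ^ (l v : ℕ) := by
  classical
  have hinj : Function.Injective fun l : σ → Fin (w + 1) => (Finsupp.equivFunOnFinite.symm fun v => (l v : ℕ) : σ →₀ ℕ) := by
    intro l l' h
    funext v
    apply Fin.ext
    exact congrFun (Finsupp.equivFunOnFinite.symm.injective h) v
  have hsub : P.support ⊆ Finset.univ.image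
      fun l : σ → Fin (w + 1) => (Finsupp.equivFunOnFinite.symm fun v => (l v : ℕ) : σ →₀ ℕ) := by
    intro s hs
    have h1 : ∀ v, s v ≤ w := fun v => (MvPolynomial.monomial_le_degreeOf v hs).trans (hP v)
    refine Finset.mem_image.2 ⟨fun v => ⟨s v, Nat.lt_succ_of_le (h1 v)⟩, Finset.mem_univ _, ?_⟩
    ext v
    rfl
  rw [MvPolynomial.eval_eq', Finset.sum_subset hsub fun s _ hs => by rw [MvPolynomial.notMem_support_iff.1 hs, zero_mul],
    Finset.sum_image fun l _ l' _ h => hinj h]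
  rfl

/-! ### products of lists -/

variable {k : ℕ} {r : Fin k → ℕ} {n : ∀ i, Fin (r i) → ℕ} {Q : ∀ i, Fin (r i) → Polynomial ℚ}
  {W : ∀ i j, Matrix (Fin (n i j)) (Fin (n i j)) (PowerSeries ℚ)}

/-- the variables -/
abbrev Va (n : ∀ i, Fin (r i) → ℕ) : Type := Σ i : Fin k, Option (Σ j : Fin (r i), Fin (n i j) × Fin (n i j))

/-- the point with the coordinates `l i`, `X i j` -/
def pa (l : Fin k → ℂ) (X : ∀ i j, Matrix (Fin (n i j)) (Fin (n i j)) ℂ) (v : Va n) : ℂ := ptn (l v.1) (X v.1) v.2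

/-- the domain -/
def Uk (k : ℕ) : Set ((Σ _ : Fin k, Unit) → ℂ) := USig (X' := fun _ : Fin k => Unit) fun _ => U1

lemma Uk_star (k : ℕ) : StarConvex ℝ (fun _ => ((1 / 2 : ℝ) : ℂ)) (Uk k) := by
  intro y hy a b ha hb hab j
  exact star_DS (hy j) ha hb hab

lemma Uk_pre (k : ℕ) : IsPreconnected (Uk k) :=
  ((Uk_star k).isPathConnected (fun _ => real_DS (x := 1 / 2) (by norm_num) (by norm_num))).isConnected.isPreconnected

lemma Uk_open (k : ℕ) : IsOpen (Uk k) := USig_open fun _ => by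
  have : U1 = (fun x : Unit → ℂ => x ()) ⁻¹' DS := rfl
  rw [this]
  exact isOpen_DS.preimage (continuous_apply _)

lemma Uk_ne (k : ℕ) : (Uk k).Nonempty := ⟨fun _ => ((1 / 2 : ℝ) : ℂ), fun _ => real_DS (x := 1 / 2) (by norm_num) (by norm_num)⟩

section

variable (Ω : ∀ i j, Matrix (Fin (n i j)) (Fin (n i j)) ℂ)

/-- the functions -/
noncomputable def fk (Q : ∀ i, Fin (r i) → Polynomial ℚ) : Va n → ((Σ _ : Fin k, Unit) → ℂ) → ℂ :=
  fSig (X' := fun _ : Fin k => Unit) fun i => fn (n i) (Q i) (Ω i)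

/-- the torsor -/
def Tk (Q : ∀ i, Fin (r i) → Polynomial ℚ) : ((Σ _ : Fin k, Unit) → ℂ) → Set (Va n → ℂ) :=
  TSig (X' := fun _ : Fin k => Unit) fun i => Tn (n i) (Q i) (Ω i)

lemma mem_Tk {x : (Σ _ : Fin k, Unit) → ℂ} {Y : Va n → ℂ} : Y ∈ Tk Ω Q x ↔
    ∃ (l : Fin k → ℂ) (X : ∀ i j, Matrix (Fin (n i j)) (Fin (n i j)) ℂ), (∀ i j, GJ (n i j) (Q i j) (X i j)) ∧
      Y = pa l fun i j => X i j * Ω i j := by
  constructor
  · intro h
    choose l X hX hY using h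
    refine ⟨l, X, hX, ?_⟩
    funext ⟨i, v⟩
    exact congrFun (hY i) v
  · rintro ⟨l, X, hX, rfl⟩ i
    exact ⟨l i, X i, hX i, rfl⟩

theorem torM_k (hJ : ∀ i, JT (n i) (Q i) (W i)) (h0 : ∀ i j, (Q i j).coeff (n i j - 1) = 0) :
    TorM (Uk k) (fk Ω Q) (Tk Ω Q) :=
  TorM.sig fun i => torM_one (Ω i) (hJ i) (h0 i)

/-- the points of the disc at distance at least `1 / w` from the circle and the slit -/
def Reg (w : ℕ) (z : ℂ) : Prop := ‖z‖ + 1 / w ≤ 1 ∧ ∀ t : ℝ, t ≤ 0 → (1 : ℝ) / w ≤ ‖z - t‖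

lemma reg_inner {w : ℕ} (hw : 0 < w) {x : (Σ _ : Fin k, Unit) → ℂ} (hx : ∀ q, Reg w (x q)) : x ∈ InnerM (Uk k) w := by
  have hw' : (0 : ℝ) < w := by exact_mod_cast hw
  have hw1 : (1 : ℝ) ≤ w := by exact_mod_cast hw
  refine ⟨?_, fun y hy i => ?_⟩
  · refine (pi_norm_le_iff_of_nonneg hw'.le).2 fun q => ?_
    have h1 := (hx q).1
    have : (0 : ℝ) < 1 / w := by positivity
    linarith
  · have h1 : dist (y ⟨i, ()⟩) (x ⟨i, ()⟩) < (w : ℝ)⁻¹ := (dist_le_pi_dist y x ⟨i, ()⟩).trans_lt (Metric.mem_ball.1 hy)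
    rw [Complex.dist_eq] at h1
    have h2 := (hx ⟨i, ()⟩).1
    have h3 := (hx ⟨i, ()⟩).2
    rw [one_div] at h2
    show ‖y ⟨i, ()⟩‖ < 1 ∧ _
    refine ⟨?_, ?_⟩
    · have h4 : ‖y ⟨i, ()⟩‖ ≤ ‖y ⟨i, ()⟩ - x ⟨i, ()⟩‖ + ‖x ⟨i, ()⟩‖ := by
        have := norm_add_le (y ⟨i, ()⟩ - x ⟨i, ()⟩) (x ⟨i, ()⟩)
        rwa [sub_add_cancel] at this
      linarith
    · by_contra hs
      rw [Complex.mem_slitPlane_iff_not_le_zero, not_not, Complex.le_def] at hs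
      obtain ⟨h5, h6⟩ := hs
      have h6' : (y ⟨i, ()⟩).im = 0 := h6
      have h7 : y ⟨i, ()⟩ = ((y ⟨i, ()⟩).re : ℂ) := Complex.ext rfl (by rw [h6', Complex.ofReal_im])
      have h8 := h3 (y ⟨i, ()⟩).re h5
      rw [← h7, norm_sub_rev, one_div] at h8
      linarith

/-- the relations: polynomials of degree at most `w` in each variable whose coefficients are combinations of the `ξ a`
with integers of `K` of size at most `T ^ w` as coefficients -/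
def RelSet (n : ∀ i, Fin (r i) → ℕ) (w : ℕ) (K : Type) [Field K] [NumberField K] (io : K →+* ℂ) (ξ : Fin w → ℂ) (T : ℝ) :
    Set (MvPolynomial (Va n) ℂ) :=
  {P | (∀ v, P.degreeOf v ≤ w) ∧ ∀ s, ∃ c : Fin w → 𝓞 K, (∀ a (φ : K →+* ℂ), ‖φ (c a : K)‖ ≤ T ^ w) ∧
    P.coeff s = ∑ a, ξ a * io (c a : K)}

/-- the exceptional points -/
def ExcK (Q : ∀ i, Fin (r i) → Polynomial ℚ) (w : ℕ) (K : Type) [Field K] [NumberField K] (io : K →+* ℂ) (ξ : Fin w → ℂ)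
    (T : ℝ) : Set (Fin k → K) :=
  {s | (∀ i, Pool.Agent.Y120.HtLe K T (s i)) ∧ (∀ i, Reg w (io (s i))) ∧ ∃ P ∈ RelSet n w K io ξ T,
    MvPolynomial.eval (pa (fun i => Complex.log (io (s i)))
      fun i j => Yf (cm (Am (n i j))) (Hc (n i j) (Q i j)) (io (s i)) * Ω i j) P = 0 ∧
    ∃ (l : Fin k → ℂ) (X : ∀ i j, Matrix (Fin (n i j)) (Fin (n i j)) ℂ), (∀ i j, GJ (n i j) (Q i j) (X i j)) ∧
      MvPolynomial.eval (pa l fun i j => X i j * Ω i j) P ≠ 0}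

/-- **All points of number fields.** -/
theorem all_points (hk : 1 ≤ k) (hJ : ∀ i, JT (n i) (Q i) (W i)) (h0 : ∀ i j, (Q i j).coeff (n i j - 1) = 0) :
    ∃ (ω : ℝ → ℕ) (T₀ : ℝ), Tendsto ω atTop atTop ∧ Monotone ω ∧ ∀ T, T₀ ≤ T → 0 < ω T ∧
      ∀ (K : Type) [Field K] [NumberField K], Module.finrank ℚ K ≤ ω T → ∀ (io : K →+* ℂ) (ξ : Fin (ω T) → ℂ),
        Cov ⌊T ^ ((ω T : ℝ)⁻¹)⌋₊ ⌊T ^ ((ω T : ℝ)⁻¹)⌋₊ ((fun (s : Fin k → K) j => io (s j)) '' ExcK Ω Q (ω T) K io ξ T) ∧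
        (ExcK Ω Q (ω T) K io ξ T).Finite ∧
        ((ExcK Ω Q (ω T) K io ξ T).ncard : ℝ) ≤
          T ^ ((ω T : ℝ)⁻¹) * ({x : K | Pool.Agent.Y120.HtLe K T x}.ncard : ℝ) ^ (k - 1) := by
  classical
  haveI : Nonempty (Fin k) := ⟨⟨0, hk⟩⟩
  haveI : Nonempty (Σ _ : Fin k, Unit) := ⟨⟨⟨0, hk⟩, ()⟩⟩
  have hmain := omega_gen (X := Fin k) (fun w => Fin w → ℂ) (fun w K _ _ io ξ T => ExcK Ω Q w K io ξ T)
    (fun w K _ _ io ξ T s hs => hs.1) ?_
  · simpa only [Fintype.card_fin] using hmain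
  intro w ε hε
  rcases Nat.eq_zero_or_pos w with hw | hw
  · refine ⟨0, 0, 2, le_rfl, le_rfl, ?_⟩
    intro K _ _ hK
    have h1 : 0 < Module.finrank ℚ K := Module.finrank_pos
    omega
  have hf : ∀ q, AnalyticOnNhd ℂ (fk Ω Q q) (Uk k) :=
    fun q => fSig_an (X' := fun _ : Fin k => Unit) (fun i v => fn_an (Ω i) (hJ i) v) q
  obtain ⟨D, C, T₀, hC, hT₀, H⟩ := excT_cov (Uk_pre k) (Uk_open k) (Uk_ne k) hf (torM_k Ω hJ h0) (InnerM (Uk k) w)
    (innerM_compact _ _) (innerM_sub _ hw) w (Fin w) w (w : ℝ) ε hε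
  refine ⟨D, C, T₀, hC, hT₀, fun K _ _ hK io ξ T hT0 => ?_⟩
  refine cov_reindex (fun q : (Σ _ : Fin k, Unit) => q.1) (fun p q h => Sigma.ext h HEq.rfl) (H K hK io ξ T hT0) ?_
  rintro _ ⟨s, ⟨hs1, hs2, P, ⟨hP1, hP2⟩, hP3, l, X, hX, hP4⟩, rfl⟩
  refine ⟨fun q => s q.1, ⟨fun q => hs1 q.1, reg_inner hw fun q => hs2 q.1, ?_⟩, rfl⟩
  choose c hc hcP using hP2
  have hev : ∀ Y : Va n → ℂ, ∑ l : Va n → Fin (w + 1), (∑ a, ξ a * io (c (Finsupp.equivFunOnFinite.symm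
      fun v => (l v : ℕ)) a : K)) * ∏ v, Y v ^ (l v : ℕ) = MvPolynomial.eval Y P := by
    intro Y
    rw [eval_box P w hP1 Y]
    refine Finset.sum_congr rfl fun l _ => ?_
    rw [hcP]
  refine ⟨fun l a => c (Finsupp.equivFunOnFinite.symm fun v => (l v : ℕ)) a, fun l a φ => ?_, ?_, fun hcon => hP4 ?_⟩
  · rw [Real.rpow_natCast]
    exact hc _ a φ
  · exact (hev _).trans hP3
  · have h2 := hcon _ ((mem_Tk Ω (Q := Q) (x := fun q => io (s q.1))).2 ⟨l, X, hX, rfl⟩)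
    exact (hev _).symm.trans h2

/-- polynomials in two sets of variables -/
noncomputable def iter (σ X : Type) : MvPolynomial (σ ⊕ X) ℂ →+* MvPolynomial σ (MvPolynomial X ℂ) :=
  MvPolynomial.eval₂Hom (MvPolynomial.C.comp MvPolynomial.C)
    (Sum.elim MvPolynomial.X fun i => MvPolynomial.C (MvPolynomial.X i))

/-- substitution of the variables -/
lemma evX_iter {σ X : Type} (x : X → ℂ) (Y : σ → ℂ) (P : MvPolynomial (σ ⊕ X) ℂ) :
    evX x Y (iter σ X P) = MvPolynomial.eval (Sum.elim Y x) P := by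
  have h1 : (MvPolynomial.eval₂Hom (MvPolynomial.eval x) Y).comp (iter σ X) = MvPolynomial.eval (Sum.elim Y x) := by
    refine MvPolynomial.ringHom_ext (fun a => ?_) ?_
    · simp [iter]
    · rintro (i | i)
      · simp [iter]
      · simp [iter]
  exact congrArg (fun g => g P) h1

/-- **Functional relations.** -/
theorem all_functions (hJ : ∀ i, JT (n i) (Q i) (W i)) (h0 : ∀ i j, (Q i j).coeff (n i j - 1) = 0)
    (P : MvPolynomial (Va n ⊕ Fin k) ℂ)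
    (hP : ∀ z : Fin k → ℂ, (∀ i, z i ∈ DS) → MvPolynomial.eval (Sum.elim (pa (fun i => Complex.log (z i))
      fun i j => Yf (cm (Am (n i j))) (Hc (n i j) (Q i j)) (z i) * Ω i j) z) P = 0)
    (z l : Fin k → ℂ) (hz : ∀ i, z i ∈ DS) (X : ∀ i j, Matrix (Fin (n i j)) (Fin (n i j)) ℂ)
    (hX : ∀ i j, GJ (n i j) (Q i j) (X i j)) :
    MvPolynomial.eval (Sum.elim (pa l fun i j => X i j * Ω i j) z) P = 0 := by
  set ρ : Fin k → (Σ _ : Fin k, Unit) := fun i => ⟨i, ()⟩ with hρ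
  set P' : MvPolynomial (Va n ⊕ (Σ _ : Fin k, Unit)) ℂ := MvPolynomial.rename (Sum.map id ρ) P with hP'
  have hev : ∀ (x : (Σ _ : Fin k, Unit) → ℂ) (Y : Va n → ℂ), evX x Y (iter _ _ P') =
      MvPolynomial.eval (Sum.elim Y fun i => x (ρ i)) P := by
    intro x Y
    rw [evX_iter, hP', MvPolynomial.eval_rename]
    congr 1
    congr 1
    funext v
    rcases v with v | v <;> rfl
  have h1 := (torM_k Ω hJ h0).inv (iter _ _ P') (fun x hx => by
    rw [evM_eq, hev]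
    exact hP (fun i => x (ρ i)) fun i => hx i) (fun q => z q.1) (fun i => hz i) _
    ((mem_Tk Ω (Q := Q) (x := fun q => z q.1)).2 ⟨l, X, hX, rfl⟩)
  rw [hev] at h1
  exact h1

end

end Run7.h309.JP
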