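import Pool.Agent.Run7.h225.HG.JA
import Pool.Agent.Run7.h225.HG.SYS2
import Pool.Agent.Run7.h225.HG.SLG
import Pool.Agent.Y118.CM.Sp

/-!
# The groups and torsors of the hypergeometric families at complex points

This is the first section of `Pool/Agent/Run7/h811/HG/TGJ.lean` (helper811), with lighter imports: `zero_of_real` and
`form_c` are those of the starting file `Pool/Agent/Y119/HA/Base.lean`.
-/

set_option autoImplicit false

open PowerSeries Matrix
open Pool.Agent.Y113 hiding Bm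
open Pool.Agent.Y119.HZ
open Pool.Agent.Y119.HY (Am Jm Bm cm E Hf Hc Yf Gal Sol QD Ac_nil E_isom E_mul_neg map_mul_eval map_C_eval)
open Run7.h893.HO
open Pool.Agent.Run7.h225.HG

namespace Run7.h309.JP

/-- analytic functions on the disc which vanish on the interval are zero -/
theorem zero_of_real {f : ℂ → ℂ} (hf : AnalyticOnNhd ℂ f (Metric.ball 0 1)) (h0 : ∀ x : ℝ, 0 < x → x < 1 → f (x : ℂ) = 0)
    {z : ℂ} (hz : ‖z‖ < 1) : f z = 0 := by
  have h1 : ∃ᶠ w in nhdsWithin (((1 / 2 : ℝ)) : ℂ) {(((1 / 2 : ℝ)) : ℂ)}ᶜ, f w = 0 := by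
    rw [Metric.nhdsWithin_basis_ball.frequently_iff]
    intro ε hε
    set x : ℝ := 1 / 2 + min (ε / 2) (1 / 4) with hx
    have h3 : 0 < min (ε / 2) (1 / 4) := by positivity
    have h4 : min (ε / 2) (1 / 4) ≤ 1 / 4 := min_le_right _ _
    have h5 : min (ε / 2) (1 / 4) ≤ ε / 2 := min_le_left _ _
    refine ⟨(x : ℂ), ⟨?_, ?_⟩, h0 x (by rw [hx]; linarith) (by rw [hx]; linarith)⟩
    · rw [Metric.mem_ball, Complex.dist_eq, ← Complex.ofReal_sub, Complex.norm_real, Real.norm_eq_abs, hx, add_sub_cancel_left,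
        abs_of_pos h3]
      linarith
    · rw [Set.mem_compl_iff, Set.mem_singleton_iff, Complex.ofReal_inj, hx]
      linarith
  have h2 := hf.eqOn_zero_of_preconnected_of_frequently_eq_zero (convex_ball (0 : ℂ) 1).isPreconnected
    (z₀ := (((1 / 2 : ℝ)) : ℂ)) (by
      rw [Metric.mem_ball, dist_zero_right, Complex.norm_real]
      norm_num) h1
  exact h2 (by rwa [Metric.mem_ball, dist_zero_right])

/-! ### one family -/

section one

variable {n : ℕ} {Q : Polynomial ℚ}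

/-- **the holomorphic part preserves the form** -/
theorem form_c (hQ : QD n Q) {z : ℂ} (hz : ‖z‖ < 1) :
    (Hf (Hc n Q) z).transpose * cm (Jm n Q) * Hf (Hc n Q) z = cm (Jm n Q) := by
  ext a b
  have h1 := zero_of_real (f := fun z => ((Hf (Hc n Q) z).transpose * cm (Jm n Q) * Hf (Hc n Q) z) a b - cm (Jm n Q) a b)
    (z := z) ?_ ?_ hz
  · exact sub_eq_zero.1 h1
  · have han : ∀ i j, AnalyticOnNhd ℂ (fun z => Hf (Hc n Q) z i j) (Metric.ball 0 1) := fun i j =>
      Pool.Agent.Y119.HY.Hf_an (Pool.Agent.Y119.HY.sol_c hQ) Pool.Agent.Y119.HY.Ac_nil i j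
    simp only [Matrix.mul_apply, Matrix.transpose_apply]
    intro w hw
    refine AnalyticAt.sub (Finset.analyticAt_fun_sum _ fun c _ => AnalyticAt.mul
      (Finset.analyticAt_fun_sum _ fun d _ => (han d a w hw).mul analyticAt_const) (han c b w hw)) analyticAt_const
  · intro x hx hx1
    have hN : cm (Am n) ^ n = 0 := Pool.Agent.Y119.HY.Ac_nil
    have hNJ : (cm (Am n)).transpose * cm (Jm n Q) + cm (Jm n Q) * cm (Am n) = 0 := Pool.Agent.Y119.HY.Jc_rel
    have h2 := Pool.Agent.Y119.HY.self_pair hN hNJ (by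
      rw [← Pool.Agent.Y119.HY.cm_transpose, ← Pool.Agent.Y119.HY.cm_mul, ← Pool.Agent.Y119.HY.cm_mul,
        ← Pool.Agent.Y119.HY.cm_add, Pool.Agent.Y119.HZ.Bm_rel hQ, Pool.Agent.Y119.HY.cm_zero]) (Pool.Agent.Y119.HY.sol_c hQ)
      (Pool.Agent.Y119.HY.real_mem_Lens hx hx1)
    have h3 : Hf (Hc n Q) (x : ℂ) = Pool.Agent.Y119.HY.Yf (cm (Am n)) (Hc n Q) (x : ℂ) * E (cm (Am n)) (-Complex.log (x : ℂ)) := by
      unfold Pool.Agent.Y119.HY.Yf
      rw [Matrix.mul_assoc, E_mul_neg hN, mul_one]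
    have h4 := isom_mul h2 (E_isom hN hNJ (-Complex.log (x : ℂ)))
    rw [← h3] at h4
    show _ - _ = (0 : ℂ)
    rw [h4, sub_self]


/-- the group of one family -/
def GJ (n : ℕ) (Q : Polynomial ℚ) (g : Matrix (Fin n) (Fin n) ℂ) : Prop :=
  g.det = 1 ∧ (QD n Q → g.transpose * cm (Jm n Q) * g = cm (Jm n Q))

lemma GJ_mul {g h : Matrix (Fin n) (Fin n) ℂ} (hg : GJ n Q g) (hh : GJ n Q h) : GJ n Q (g * h) :=
  ⟨by rw [Matrix.det_mul, hg.1, hh.1, one_mul], fun hQ => isom_mul (hg.2 hQ) (hh.2 hQ)⟩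

/-- the determinant of the holomorphic part, at complex points -/
lemma det_Hf (hQ : QG n Q) {z : ℂ} (hz : ‖z‖ < 1) :
    (Hf (Hc n Q) z).det = Complex.exp (-((Q.coeff (n - 1) : ℚ) : ℂ) * Complex.log (1 - z)) := by
  have hre : ∀ w ∈ Metric.ball (0 : ℂ) 1, 1 - w ∈ Complex.slitPlane := by
    intro w hw
    rw [Metric.mem_ball, dist_zero_right] at hw
    left
    rw [Complex.sub_re, Complex.one_re]
    have := (Complex.abs_re_le_norm w).trans_lt hw
    have := (abs_lt.1 this).2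
    linarith
  have h1 := zero_of_real (f := fun z => (Hf (Hc n Q) z).det -
    Complex.exp (-((Q.coeff (n - 1) : ℚ) : ℂ) * Complex.log (1 - z))) ?_ ?_ hz
  · exact sub_eq_zero.1 h1
  · intro w hw
    refine AnalyticAt.sub ?_ ?_
    · simp only [Matrix.det_apply]
      refine Finset.analyticAt_fun_sum _ fun σ _ => ?_
      refine AnalyticAt.const_smul ?_
      refine Finset.analyticAt_fun_prod _ fun i _ => ?_
      exact Pool.Agent.Y119.HY.Hf_an (sol_c_g hQ) Ac_nil _ _ w hw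
    · refine AnalyticAt.cexp (analyticAt_const.mul ?_)
      exact AnalyticAt.clog (analyticAt_const.sub analyticAt_id) (hre w hw)
  · intro x hx hx1
    have h2 := (YJ_mem hQ hx hx1).1
    unfold Yf at h2
    rw [Matrix.det_mul, det_E _ hQ, mul_one] at h2
    show _ - _ = (0 : ℂ)
    rw [h2, sub_self]

lemma Hf_mem (hQ : QG n Q) {z : ℂ} (hz : ‖z‖ < 1) : Hf (Hc n Q) z ∈ TJ n Q (Complex.log (1 - z)) :=
  ⟨det_Hf hQ hz, fun hQD => form_c hQD hz⟩

lemma E_GJ (hQ : QG n Q) (c : ℂ) : GJ n Q (E (cm (Am n)) c) :=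
  ⟨det_E c hQ, fun _ => E_isom Ac_nil Pool.Agent.Y119.HY.Jc_rel c⟩

lemma TJ_mul {l : ℂ} {X g : Matrix (Fin n) (Fin n) ℂ} (hX : X ∈ TJ n Q l) (hg : GJ n Q g) : X * g ∈ TJ n Q l :=
  ⟨by rw [Matrix.det_mul, hX.1, hg.1, mul_one], fun hQD => isom_mul (hX.2 hQD) (hg.2 hQD)⟩

/-- two elements of the torsor differ by an element of the group -/
lemma TJ_div {l : ℂ} {X Y : Matrix (Fin n) (Fin n) ℂ} (hX : X ∈ TJ n Q l) (hY : Y ∈ TJ n Q l) :
    ∃ g, GJ n Q g ∧ X * g = Y := by
  have hu : IsUnit X.det := by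
    rw [hX.1]
    exact Ne.isUnit (Complex.exp_ne_zero _)
  refine ⟨X⁻¹ * Y, ⟨?_, fun hQD => ?_⟩, ?_⟩
  · rw [Matrix.det_mul, Matrix.det_nonsing_inv, Ring.inverse_eq_inv', hX.1, hY.1,
      inv_mul_cancel₀ (Complex.exp_ne_zero _)]
  · refine isom_mul ?_ (hY.2 hQD)
    have h1 := hX.2 hQD
    calc (X⁻¹).transpose * cm (Jm n Q) * X⁻¹ =
          (X⁻¹).transpose * (X.transpose * cm (Jm n Q) * X) * X⁻¹ := by rw [h1]
      _ = (X * X⁻¹).transpose * cm (Jm n Q) * (X * X⁻¹) := by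
        rw [Matrix.transpose_mul]
        simp only [Matrix.mul_assoc]
      _ = _ := by rw [Matrix.mul_nonsing_inv _ hu, Matrix.transpose_one, one_mul, mul_one]
  · rw [← Matrix.mul_assoc, Matrix.mul_nonsing_inv _ hu, one_mul]

/-- elements connected with `1` -/
def Pq (n : ℕ) (Q : Polynomial ℚ) (g : Matrix (Fin n) (Fin n) ℂ) : Prop :=
  ∃ M : Matrix (Fin n) (Fin n) (Polynomial ℂ), M.map (Polynomial.eval 0) = 1 ∧ M.map (Polynomial.eval 1) = g ∧
    ∀ c, GJ n Q (M.map (Polynomial.eval c))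

/-- the special linear group is connected -/
lemma sl_conn (g : Matrix (Fin n) (Fin n) ℂ) (hg : g.det = 1) :
    ∃ M : Matrix (Fin n) (Fin n) (Polynomial ℂ), M.map (Polynomial.eval 0) = 1 ∧ M.map (Polynomial.eval 1) = g ∧
      ∀ c, (M.map (Polynomial.eval c)).det = 1 := by
  set S : Submonoid (Matrix (Fin n) (Fin n) ℂ) :=
    { carrier := {g | ∃ M : Matrix (Fin n) (Fin n) (Polynomial ℂ), M.map (Polynomial.eval 0) = 1 ∧
        M.map (Polynomial.eval 1) = g ∧ ∀ c, (M.map (Polynomial.eval c)).det = 1}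
      mul_mem' := by
        rintro a b ⟨M, h1, h2, h3⟩ ⟨N, k1, k2, k3⟩
        refine ⟨M * N, ?_, ?_, fun c => ?_⟩
        · rw [map_mul_eval, h1, k1, one_mul]
        · rw [map_mul_eval, h2, k2]
        · rw [map_mul_eval, Matrix.det_mul, h3, k3, one_mul]
      one_mem' := ⟨1, Pool.Agent.Y118.CM.map_one' 0, Pool.Agent.Y118.CM.map_one' 1, fun c => by
        rw [Pool.Agent.Y118.CM.map_one', Matrix.det_one]⟩ } with hS
  have h1 : ∀ w ξ : Fin n → ℂ, ξ ⬝ᵥ w = 0 → 1 + vecMulVec w ξ ∈ S := by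
    intro w ξ hw
    have hMe : ∀ c : ℂ, (1 + (Polynomial.X : Polynomial ℂ) • vecMulVec (fun l => Polynomial.C (w l))
        (fun l => Polynomial.C (ξ l)) : Matrix (Fin n) (Fin n) (Polynomial ℂ)).map (Polynomial.eval c) =
        1 + vecMulVec (c • w) ξ := by
      intro c
      ext l k
      simp only [Matrix.map_apply, Matrix.add_apply, Matrix.smul_apply, smul_eq_mul, vecMulVec_apply,
        Polynomial.eval_add, Polynomial.eval_mul, Polynomial.eval_X, Polynomial.eval_C, Pi.smul_apply]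
      congr 1
      · rw [Matrix.one_apply, Matrix.one_apply]
        split_ifs <;> simp
      · ring
    refine ⟨1 + (Polynomial.X : Polynomial ℂ) • vecMulVec (fun l => Polynomial.C (w l)) (fun l => Polynomial.C (ξ l)),
      ?_, ?_, fun c => ?_⟩
    · rw [hMe, zero_smul, zero_vecMulVec, add_zero]
    · rw [hMe, one_smul]
    · rw [hMe, Matrix.vecMulVec_eq Unit, Matrix.det_one_add_replicateCol_mul_replicateRow, dotProduct_smul, hw,
        smul_zero, add_zero]
  exact p_SLG n S h1 g hg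

/-- the group of one family is connected -/
theorem Pq_all {g : Matrix (Fin n) (Fin n) ℂ} (hg : GJ n Q g) : Pq n Q g := by
  by_cases hQ : QD n Q
  · obtain ⟨M, h1, h2, h3⟩ := Pool.Agent.Y118.CM.Pc_all (Pool.Agent.Y119.HY.Jc_skew hQ) (Pool.Agent.Y119.HY.Jc_det hQ) g
      (hg.2 hQ)
    refine ⟨M, h1, h2, fun c => ⟨?_, fun _ => h3 c⟩⟩
    have he : ∀ c : ℂ, (M.map (Polynomial.eval c)).det = Polynomial.eval c M.det := by
      intro c
      have := RingHom.map_det (Polynomial.evalRingHom c) M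
      rw [Polynomial.coe_evalRingHom] at this
      exact this.symm
    have hsq : M.det * M.det = 1 := by
      refine Polynomial.funext fun c => ?_
      rw [Polynomial.eval_mul, ← he, Polynomial.eval_one]
      have h4 := congrArg Matrix.det (h3 c)
      rw [Matrix.det_mul, Matrix.det_mul, Matrix.det_transpose] at h4
      have h5 := Pool.Agent.Y119.HY.Jc_det hQ
      have h6 : ((M.map (Polynomial.eval c)).det * (M.map (Polynomial.eval c)).det - 1) * (cm (Jm n Q)).det = 0 := by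
        linear_combination h4
      exact sub_eq_zero.1 ((mul_eq_zero.1 h6).resolve_right h5)
    have hun : IsUnit M.det := IsUnit.of_mul_eq_one _ hsq
    obtain ⟨a, -, ha⟩ := Polynomial.isUnit_iff.1 hun
    have h0 := he 0
    rw [h1, Matrix.det_one, ← ha, Polynomial.eval_C] at h0
    rw [he, ← ha, Polynomial.eval_C, ← h0]
  · obtain ⟨M, h1, h2, h3⟩ := sl_conn g hg.1
    exact ⟨M, h1, h2, fun c => ⟨h3 c, fun h => absurd h hQ⟩⟩

end one


end Run7.h309.JP
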