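import Pool.Agent.Run7.h309.JP.All

/-!
# Joint hypergeometric families pulled back along `z = 1 - v ^ M`: the relations are those of the torsor
-/

set_option autoImplicit false
set_option linter.unusedSectionVars false
set_option linter.unusedVariables false

open Filter Topology Matrix

namespace Run7.h309.JP

open Pool.Agent.Y119.HY (Am Jm cm E Hf Hc Yf Gal Rel Ac_nil QD ev evp pt eval_evp map_C_eval map_mul_eval)
open Pool.Agent.Run7.h225.HG
open Run7.h893.HO
open Pool.Agent.Y890.MV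

/-! ### the domain -/

/-- the principal branch of `(1 - z) ^ (1 / M)` -/
noncomputable def rad (M : ℕ) (z : ℂ) : ℂ := Complex.exp (Complex.log (1 - z) / M)

/-- the domain of `v` -/
def VM (M : ℕ) : Set ℂ := {v | 1 - v ^ M ∈ DS ∧ v ∈ Complex.slitPlane ∧ |v.arg| < Real.pi / M}

lemma log_pow_M {M : ℕ} (hM : 0 < M) {v : ℂ} (hv : v ≠ 0) (ha : |v.arg| < Real.pi / M) :
    Complex.log (v ^ M) = M * Complex.log v := by
  have hM' : (0 : ℝ) < M := by exact_mod_cast hM
  have h1 : v ^ M = Complex.exp (M * Complex.log v) := by rw [Complex.exp_nat_mul, Complex.exp_log hv]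
  have h2 : ((M : ℂ) * Complex.log v).im = M * v.arg := by
    rw [← Complex.ofReal_natCast, Complex.im_ofReal_mul, Complex.log_im]
  have h3 := abs_lt.1 ha
  rw [lt_div_iff₀ hM', neg_div', div_lt_iff₀ hM'] at h3
  rw [h1, Complex.log_exp]
  · rw [h2]; linarith
  · rw [h2]; linarith

lemma slit_one_sub {z : ℂ} (hz : ‖z‖ < 1) : 1 - z ∈ Complex.slitPlane := by
  left
  rw [Complex.sub_re, Complex.one_re]
  have := (Complex.abs_re_le_norm z).trans_lt hz
  have := (abs_lt.1 this).2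
  linarith

lemma rad_pow {M : ℕ} (hM : 0 < M) {z : ℂ} (hz : ‖z‖ < 1) : rad M z ^ M = 1 - z := by
  have hM' : (M : ℂ) ≠ 0 := by exact_mod_cast hM.ne'
  unfold rad
  rw [← Complex.exp_nat_mul, mul_div_cancel₀ _ hM', Complex.exp_log (Complex.slitPlane_ne_zero (slit_one_sub hz))]

lemma rad_log {M : ℕ} (hM : 0 < M) {z : ℂ} : Complex.log (rad M z) = Complex.log (1 - z) / M := by
  have hM' : (0 : ℝ) < M := by exact_mod_cast hM
  have hM1 : (1 : ℝ) ≤ M := by exact_mod_cast hM
  have h1 : (Complex.log (1 - z) / (M : ℂ)).im = (1 - z).arg / M := by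
    rw [← Complex.ofReal_natCast, Complex.div_ofReal_im, Complex.log_im]
  have h2 := Complex.neg_pi_lt_arg (1 - z)
  have h3 := Complex.arg_le_pi (1 - z)
  have hpi := Real.pi_pos
  unfold rad
  refine Complex.log_exp ?_ ?_
  · rw [h1, lt_div_iff₀ hM']
    nlinarith
  · rw [h1, div_le_iff₀ hM']
    nlinarith

lemma rad_mem {M : ℕ} (hM : 0 < M) {z : ℂ} (hz : z ∈ DS) : rad M z ∈ VM M := by
  have hM' : (0 : ℝ) < M := by exact_mod_cast hM
  have hM1 : (1 : ℝ) ≤ M := by exact_mod_cast hM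
  have h1 : (rad M z).arg = (1 - z).arg / M := by
    rw [← Complex.log_im, rad_log hM, ← Complex.ofReal_natCast, Complex.div_ofReal_im, Complex.log_im]
  have h0 : |(1 - z).arg| < Real.pi := by
    have h2 := slit_one_sub hz.1
    rw [Complex.mem_slitPlane_iff_arg] at h2
    rw [abs_lt]
    exact ⟨Complex.neg_pi_lt_arg _, lt_of_le_of_ne (Complex.arg_le_pi _) h2.1⟩
  have h4 : |(rad M z).arg| < Real.pi / M := by
    rw [h1, abs_div, abs_of_pos hM']
    exact div_lt_div_of_pos_right h0 hM'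
  refine ⟨?_, ?_, h4⟩
  · rw [rad_pow hM hz.1, sub_sub_cancel]
    exact hz
  · rw [Complex.mem_slitPlane_iff_arg]
    refine ⟨fun h => ?_, Complex.exp_ne_zero _⟩
    rw [h, abs_of_pos Real.pi_pos] at h4
    exact absurd h4 (not_lt.2 (div_le_self Real.pi_pos.le hM1))

lemma rad_of {M : ℕ} (hM : 0 < M) {v : ℂ} (hv : v ∈ VM M) : rad M (1 - v ^ M) = v := by
  have hM' : (M : ℂ) ≠ 0 := by exact_mod_cast hM.ne'
  have h0 := Complex.slitPlane_ne_zero hv.2.1
  unfold rad
  rw [sub_sub_cancel, log_pow_M hM h0 hv.2.2, mul_div_cancel_left₀ _ hM', Complex.exp_log h0]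

lemma VM_eq {M : ℕ} (hM : 0 < M) : VM M = rad M '' DS := by
  ext v
  constructor
  · intro hv
    exact ⟨1 - v ^ M, hv.1, rad_of hM hv⟩
  · rintro ⟨z, hz, rfl⟩
    exact rad_mem hM hz

lemma isOpen_VM (M : ℕ) : IsOpen (VM M) := by
  have h1 : IsOpen {v : ℂ | v ∈ Complex.slitPlane ∧ |v.arg| < Real.pi / M} := by
    have hc : ContinuousOn (fun v : ℂ => |v.arg|) Complex.slitPlane := fun v hv =>
      (Complex.continuousAt_arg hv).continuousWithinAt.abs
    exact hc.isOpen_inter_preimage Complex.isOpen_slitPlane isOpen_Iio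
  exact (isOpen_DS.preimage (continuous_const.sub (continuous_pow M))).inter h1

lemma rad_cont (M : ℕ) : ContinuousOn (rad M) DS := by
  intro z hz
  unfold rad
  refine ContinuousAt.continuousWithinAt ?_
  refine Complex.continuous_exp.continuousAt.comp ?_
  refine ContinuousAt.div_const ?_ _
  exact ContinuousAt.clog (continuousAt_const.sub continuousAt_id) (slit_one_sub hz.1)

lemma rad_an (M : ℕ) : AnalyticOnNhd ℂ (rad M) (Metric.ball 0 1) := by
  intro z hz
  rw [Metric.mem_ball, dist_zero_right] at hz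
  unfold rad
  refine AnalyticAt.cexp ?_
  exact (AnalyticAt.clog (analyticAt_const.sub analyticAt_id) (slit_one_sub hz)).div_const

/-- the domain of one variable -/
def V1 (M : ℕ) : Set (Unit → ℂ) := {x | x () ∈ VM M}

/-! ### one list of families -/

variable {r : ℕ} {n : Fin r → ℕ} {Q : Fin r → Polynomial ℚ} {W : ∀ j, Matrix (Fin (n j)) (Fin (n j)) (PowerSeries ℚ)}

/-- the functions of `v` -/
noncomputable def gn (n : Fin r → ℕ) (Q : Fin r → Polynomial ℚ) (M : ℕ) (Ω : ∀ j, Matrix (Fin (n j)) (Fin (n j)) ℂ)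
    (v : Vn n) (x : Unit → ℂ) : ℂ :=
  ptn (Complex.log (1 - x () ^ M)) (fun j => Yf (cm (Am (n j))) (Hc (n j) (Q j)) (1 - x () ^ M) * Ω j) v

/-- the torsor -/
def Gn (n : Fin r → ℕ) (Q : Fin r → Polynomial ℚ) (M : ℕ) (Ω : ∀ j, Matrix (Fin (n j)) (Fin (n j)) ℂ) (x : Unit → ℂ) :
    Set (Vn n → ℂ) :=
  {Y | ∃ (l : ℂ) (X : ∀ j, Matrix (Fin (n j)) (Fin (n j)) ℂ), (∀ j, X j ∈ TJ (n j) (Q j) (M * Complex.log (x ()))) ∧
    Y = ptn l fun j => X j * Ω j}

/-- the arithmetic condition on `M`: `M s_j` is an integer and `1 / M` is an integral combination of the `s_j` and `1` -/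
structure AM (n : Fin r → ℕ) (Q : Fin r → Polynomial ℚ) (M : ℕ) : Prop where
  pos : 0 < M
  int : ∀ j, ∃ e : ℤ, (e : ℚ) = M * (Q j).coeff (n j - 1)
  comb : ∃ (a : Fin r → ℕ) (B : ℤ), (B : ℚ) - ∑ j, a j * (Q j).coeff (n j - 1) = 1 / M

/-- all variables in one polynomial ring -/
noncomputable def Flat {n : Fin r → ℕ} : MvPolynomial (Vn n) (MvPolynomial Unit ℂ) →+* MvPolynomial (Option (Vn n)) ℂ :=
  MvPolynomial.eval₂Hom (MvPolynomial.eval₂Hom MvPolynomial.C (fun _ => MvPolynomial.X none))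
    (fun v => MvPolynomial.X (some v))

lemma eval_Flat (p : MvPolynomial (Vn n) (MvPolynomial Unit ℂ)) (z : ℂ) (Y : Vn n → ℂ) :
    MvPolynomial.eval (fun o : Option (Vn n) => o.elim z Y) (Flat p) = evX (fun _ => z) Y p := by
  have h1 : (MvPolynomial.eval (fun o : Option (Vn n) => o.elim z Y)).comp (Flat (n := n)) =
      MvPolynomial.eval₂Hom (MvPolynomial.eval (fun _ : Unit => z)) Y := by
    refine MvPolynomial.ringHom_ext (fun a => ?_) ?_
    · have h2 : ((MvPolynomial.eval (fun o : Option (Vn n) => o.elim z Y)).comp (Flat (n := n))).comp MvPolynomial.C =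
          MvPolynomial.eval (fun _ : Unit => z) := by
        refine MvPolynomial.ringHom_ext (fun b => ?_) fun i => ?_
        · simp [Flat]
        · simp [Flat]
      have h3 := congrArg (fun g => g a) h2
      simp only [RingHom.comp_apply] at h3
      rw [RingHom.comp_apply, h3]
      exact (MvPolynomial.eval₂Hom_C _ _ _).symm
    · intro v
      simp [Flat]
  exact congrArg (fun g => g p) h1

/-- the determinant of a block as a polynomial -/
noncomputable def dp (n : Fin r → ℕ) (j : Fin r) : MvPolynomial (Pool.Agent.Y119.HY.Vr (∑ j, n j)) ℂ :=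
  (Matrix.of fun a b : Fin (n j) => MvPolynomial.X (some (some (ei n j a, ei n j b)))).det

lemma eval_dp (z L : ℂ) (X : ∀ j, Matrix (Fin (n j)) (Fin (n j)) ℂ) (j : Fin r) :
    MvPolynomial.eval (pt z L (blk n ℂ X)) (dp n j) = (X j).det := by
  unfold dp
  rw [RingHom.map_det]
  congr 1
  ext a b
  simp [pt, blk_ei]

/-- the common denominator -/
noncomputable def cden (n : Fin r → ℕ) (B : ℤ) : MvPolynomial (Pool.Agent.Y119.HY.Vr (∑ j, n j)) ℂ :=
  (1 - MvPolynomial.X none) ^ (-B).toNat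

/-- the numerators -/
noncomputable def cnum (a : Fin r → ℕ) (B : ℤ) (Ω : ∀ j, Matrix (Fin (n j)) (Fin (n j)) ℂ) :
    Option (Vn n) → MvPolynomial (Pool.Agent.Y119.HY.Vr (∑ j, n j)) ℂ :=
  fun o => o.elim ((∏ j, dp n j ^ a j) * (1 - MvPolynomial.X none) ^ B.toNat) fun v =>
    v.elim (MvPolynomial.X (some none) * cden n B) fun x =>
      (∑ c, MvPolynomial.X (some (some (ei n x.1 x.2.1, ei n x.1 c))) * MvPolynomial.C (Ω x.1 c x.2.2)) * cden n B

lemma eval_cden (B : ℤ) (z L : ℂ) (X : ∀ j, Matrix (Fin (n j)) (Fin (n j)) ℂ) :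
    MvPolynomial.eval (pt z L (blk n ℂ X)) (cden n B) = (1 - z) ^ (-B).toNat := by
  simp [cden, pt]

/-- the values of the fractions -/
lemma frac_val (a : Fin r → ℕ) (B : ℤ) (Ω : ∀ j, Matrix (Fin (n j)) (Fin (n j)) ℂ) {z : ℂ} (hz : 1 - z ≠ 0) (L : ℂ)
    (X : ∀ j, Matrix (Fin (n j)) (Fin (n j)) ℂ) :
    (fun o => MvPolynomial.eval (pt z L (blk n ℂ X)) (cnum a B Ω o) / MvPolynomial.eval (pt z L (blk n ℂ X)) (cden n B)) =
      fun o : Option (Vn n) => o.elim ((∏ j, (X j).det ^ a j) * (1 - z) ^ B) (ptn L fun j => X j * Ω j) := by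
  have hc : (1 - z) ^ (-B).toNat ≠ 0 := pow_ne_zero _ hz
  funext o
  rcases o with _ | _ | ⟨j, p⟩
  · simp only [cnum, Option.elim_none, map_mul, map_prod, map_pow, eval_dp, eval_cden]
    have h1 : MvPolynomial.eval (pt z L (blk n ℂ X)) (1 - MvPolynomial.X none) = 1 - z := by simp [pt]
    rw [h1, mul_div_assoc]
    congr 1
    rw [div_eq_iff hc, ← zpow_natCast, ← zpow_natCast, ← zpow_add₀ hz]
    congr 1
    omega
  · simp only [cnum, Option.elim_some, Option.elim_none, map_mul, eval_cden]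
    rw [mul_div_assoc, div_self hc, mul_one]
    simp [pt, ptn]
  · simp only [cnum, Option.elim_some, map_mul, eval_cden]
    rw [mul_div_assoc, div_self hc, mul_one]
    simp [pt, ptn, Matrix.mul_apply, blk_ei]

section

variable (Ω : ∀ j, Matrix (Fin (n j)) (Fin (n j)) ℂ)

/-- the product of the determinants is the radical -/
lemma prod_det {M : ℕ} {a : Fin r → ℕ} {B : ℤ} (hB : (B : ℚ) - ∑ j, a j * (Q j).coeff (n j - 1) = 1 / M)
    {z l : ℂ} (hl : Complex.exp l = 1 - z) {X : ∀ j, Matrix (Fin (n j)) (Fin (n j)) ℂ}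
    (hX : ∀ j, X j ∈ TJ (n j) (Q j) l) : (∏ j, (X j).det ^ a j) * (1 - z) ^ B = Complex.exp (l / M) := by
  have h1 : ∀ j, (X j).det ^ a j = Complex.exp (-((a j * (Q j).coeff (n j - 1) : ℚ) : ℂ) * l) := by
    intro j
    rw [(hX j).1, ← Complex.exp_nat_mul]
    congr 1
    push_cast
    ring
  have h2 : ((B : ℚ) : ℂ) - ((∑ j, a j * (Q j).coeff (n j - 1) : ℚ) : ℂ) = 1 / M := by
    have := congrArg (fun q : ℚ => (q : ℂ)) hB
    simpa using this
  simp only [h1]
  rw [← Complex.exp_sum, ← hl, ← Complex.exp_int_mul, ← Complex.exp_add]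
  congr 1
  rw [← Finset.sum_mul, Finset.sum_neg_distrib]
  push_cast at h2 ⊢
  linear_combination l * h2

/-- the relations hold on the torsor, real points -/
theorem inv_real {M : ℕ} (hJ : JT n Q W) (hM : AM n Q M) (p : MvPolynomial (Vn n) (MvPolynomial Unit ℂ))
    (hp : ∀ x ∈ V1 M, evM (gn n Q M Ω) x p = 0) {x : ℝ} (hx : 0 < x) (hx1 : x < 1)
    (X : ∀ j, Matrix (Fin (n j)) (Fin (n j)) ℂ) (hX : ∀ j, X j ∈ TJ (n j) (Q j) (Complex.log (1 - (x : ℂ)))) :
    evX (fun _ => rad M (x : ℂ)) (ptn (Complex.log (x : ℂ)) fun j => X j * Ω j) p = 0 := by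
  classical
  obtain ⟨a, B, hB⟩ := hM.comb
  have hz1 : ∀ x : ℝ, 0 < x → x < 1 → ‖(x : ℂ)‖ < 1 := by
    intro x hx hx1
    rw [Complex.norm_real, Real.norm_of_nonneg hx.le]
    exact hx1
  have hne : ∀ x : ℝ, 0 < x → x < 1 → (1 - (x : ℂ)) ≠ 0 := fun x hx hx1 =>
    Complex.slitPlane_ne_zero (slit_one_sub (hz1 x hx hx1))
  set P' : MvPolynomial (Option (Vn n)) (MvPolynomial (Pool.Agent.Y119.HY.Vr (∑ j, n j)) ℂ) :=
    MvPolynomial.map MvPolynomial.C (Flat p) with hP'
  set D := P'.totalDegree with hD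
  set R := clear D (cnum a B Ω) (cden n B) P' with hR
  have hev : ∀ x : ℝ, 0 < x → x < 1 → ∀ X : ∀ j, Matrix (Fin (n j)) (Fin (n j)) ℂ,
      (∀ j, X j ∈ TJ (n j) (Q j) (Complex.log (1 - (x : ℂ)))) →
      ev R (x : ℂ) (Complex.log x) (blk n ℂ X) = ((1 - (x : ℂ)) ^ (-B).toNat) ^ D *
        evX (fun _ => rad M (x : ℂ)) (ptn (Complex.log (x : ℂ)) fun j => X j * Ω j) p := by
    intro x hx hx1 X hX
    have h1 := clear_eval D (cnum a B Ω) (cden n B) P' le_rfl (pt (x : ℂ) (Complex.log x) (blk n ℂ X)) (by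
      rw [eval_cden]
      exact pow_ne_zero _ (hne x hx hx1))
    rw [frac_val a B Ω (hne x hx hx1), prod_det hB (Complex.exp_log (hne x hx hx1)) hX, eval_cden] at h1
    refine h1.trans ?_
    congr 1
    rw [hP', evX, MvPolynomial.eval₂_map]
    rw [show ((MvPolynomial.eval (pt (x : ℂ) (Complex.log x) (blk n ℂ X))).comp MvPolynomial.C) = RingHom.id ℂ from
      RingHom.ext fun a => MvPolynomial.eval_C a]
    exact eval_Flat p _ _
  have hrel : R ∈ Rel (YJ n Q) := by
    intro y hy hy1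
    rw [YJ_eq hJ.toJF, hev y hy hy1 _ fun j => YJ_mem (hJ.q j) hy hy1]
    have h1 := hp (fun _ => rad M (y : ℂ)) (rad_mem hM.pos (real_DS hy hy1))
    have h2 : (1 : ℂ) - rad M (y : ℂ) ^ M = (y : ℂ) := by rw [rad_pow hM.pos (hz1 y hy hy1), sub_sub_cancel]
    rw [evM_eq] at h1
    unfold gn at h1
    rw [h2] at h1
    refine mul_eq_zero_of_right _ ?_
    exact h1
  obtain ⟨g, hg, hgX⟩ := tor_joint hJ hx hx1 (Complex.exp_log (hne x hx hx1)) hX 0
  have h1 := hg _ hrel x hx hx1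
  rw [YJ_eq hJ.toJF, ← map_mul] at h1
  have h2 : ((fun j => Yf (cm (Am (n j))) (Hc (n j) (Q j)) (x : ℂ)) * g) = X := by
    funext j
    rw [Pi.mul_apply, hgX j, Pool.Agent.Y119.HY.E_zero Ac_nil, mul_one]
  rw [h2, hev x hx hx1 X hX] at h1
  exact (mul_eq_zero.1 h1).resolve_left (pow_ne_zero _ (pow_ne_zero _ (hne x hx hx1)))

/-- the relations hold on the torsor -/
theorem inv_kum {M : ℕ} (hJ : JT n Q W) (hM : AM n Q M) (p : MvPolynomial (Vn n) (MvPolynomial Unit ℂ))
    (hp : ∀ x ∈ V1 M, evM (gn n Q M Ω) x p = 0) (z : ℂ) (hz : ‖z‖ < 1) (l : ℂ)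
    (X : ∀ j, Matrix (Fin (n j)) (Fin (n j)) ℂ) (hX : ∀ j, X j ∈ TJ (n j) (Q j) (Complex.log (1 - z))) :
    evX (fun _ => rad M z) (ptn l fun j => X j * Ω j) p = 0 := by
  choose κ hκ hκX using fun j => TJ_div (Hf_mem (hJ.q j) hz) (hX j)
  set F : ℂ → Polynomial ℂ := fun w => MvPolynomial.aeval (fun o : Option (Vn n) => o.elim (Polynomial.C (rad M w))
    (ptn Polynomial.X fun j => (Hf (Hc (n j) (Q j)) w * κ j * Ω j).map Polynomial.C)) (Flat p) with hF
  have hFe : ∀ w s, (F w).eval s = evX (fun _ => rad M w) (ptn s fun j => Hf (Hc (n j) (Q j)) w * κ j * Ω j) p := by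
    intro w s
    rw [← eval_Flat]
    have h3 : (Polynomial.aeval s : Polynomial ℂ →ₐ[ℂ] ℂ).comp (MvPolynomial.aeval (fun o : Option (Vn n) =>
        o.elim (Polynomial.C (rad M w)) (ptn Polynomial.X fun j => (Hf (Hc (n j) (Q j)) w * κ j * Ω j).map Polynomial.C))) =
        MvPolynomial.aeval (fun o : Option (Vn n) => o.elim (rad M w)
          (ptn s fun j => Hf (Hc (n j) (Q j)) w * κ j * Ω j)) := by
      refine MvPolynomial.algHom_ext fun o => ?_
      rw [AlgHom.comp_apply, MvPolynomial.aeval_X, MvPolynomial.aeval_X]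
      rcases o with _ | _ | ⟨j, q⟩
      · simp
      · simp [ptn]
      · simp only [ptn, Option.elim_some, Matrix.map_apply, Polynomial.coe_aeval_eq_eval, Polynomial.eval_C]
    have h4 := DFunLike.congr_fun h3 (Flat p)
    exact h4
  have h1 : ∀ w ∈ Metric.ball (0 : ℂ) 1, F w = 0 := by
    refine Pool.Agent.Y119.HY.PA.log_zero (f := F) ?_ fun y hy hy1 => ?_
    · refine Pool.Agent.Y119.HY.PA.aeval (fun o => ?_) _
      rcases o with _ | _ | ⟨j, q⟩
      · exact Pool.Agent.Y119.HY.PA.ofFun (rad_an M)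
      · exact Pool.Agent.Y119.HY.PA.const _
      · simp only [ptn, Option.elim_some, Matrix.map_apply]
        refine Pool.Agent.Y119.HY.PA.ofFun ?_
        simp only [Matrix.mul_apply]
        intro w hw
        refine Finset.analyticAt_fun_sum _ fun c _ => AnalyticAt.mul (Finset.analyticAt_fun_sum _ fun d _ => ?_) analyticAt_const
        exact (Pool.Agent.Y119.HY.Hf_an (sol_c_g (hJ.q j)) Ac_nil _ _ w hw).mul analyticAt_const
    · rw [Complex.ofReal_log hy.le, hFe]
      refine inv_real Ω hJ hM p hp hy hy1 (fun j => Hf (Hc (n j) (Q j)) (y : ℂ) * κ j) fun j => ?_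
      refine TJ_mul (Hf_mem (hJ.q j) ?_) (hκ j)
      rw [Complex.norm_real, Real.norm_of_nonneg hy.le]
      exact hy1
  have h2 := congrArg (Polynomial.eval l) (h1 z (by rw [Metric.mem_ball, dist_zero_right]; exact hz))
  rw [hFe, Polynomial.eval_zero] at h2
  refine (congrArg (fun X => evX (fun _ => rad M z) (ptn l X) p) ?_).trans h2
  funext j
  rw [← hκX j]

/-- powers of `v` -/
lemma exp_v {M : ℕ} {s : ℚ} {e : ℤ} (he : (e : ℚ) = M * s) {v : ℂ} (hv : v ≠ 0) :
    Complex.exp (-((s : ℚ) : ℂ) * (M * Complex.log v)) = v ^ (-e) := by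
  have h1 : ((e : ℚ) : ℂ) = M * ((s : ℚ) : ℂ) := by
    have := congrArg (fun q : ℚ => (q : ℂ)) he
    simpa using this
  have h2 : -((s : ℚ) : ℂ) * (M * Complex.log v) = ((-e : ℤ) : ℂ) * Complex.log v := by
    push_cast at h1 ⊢
    rw [h1]
    ring
  rw [h2, Complex.exp_int_mul, Complex.exp_log hv]

/-- **One list of families.** -/
theorem torM_kum {M : ℕ} (hJ : JT n Q W) (hM : AM n Q M) : TorM (V1 M) (gn n Q M Ω) (Gn n Q M Ω) := by
  classical
  have hlog : ∀ x ∈ V1 M, (M : ℂ) * Complex.log (x ()) = Complex.log (1 - (1 - x () ^ M)) := by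
    intro x hx
    rw [sub_sub_cancel, log_pow_M hM.pos (Complex.slitPlane_ne_zero hx.2.1) hx.2.2]
  have hself : ∀ x ∈ V1 M, ∀ j, Yf (cm (Am (n j))) (Hc (n j) (Q j)) (1 - x () ^ M) ∈
      TJ (n j) (Q j) (M * Complex.log (x ())) := by
    intro x hx j
    rw [hlog x hx]
    exact TJ_mul (Hf_mem (hJ.q j) hx.1.1) (E_GJ (hJ.q j) _)
  refine ⟨fun x hx => ?_, fun p hp x hx Y hY => ?_, fun x hx Y hY => ?_, ?_⟩
  · exact ⟨Complex.log (1 - x () ^ M), fun j => Yf (cm (Am (n j))) (Hc (n j) (Q j)) (1 - x () ^ M), hself x hx, rfl⟩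
  · obtain ⟨l, X, hX, rfl⟩ := hY
    have h1 := inv_kum Ω hJ hM p hp (1 - x () ^ M) hx.1.1 l X (fun j => by
      rw [← hlog x hx]
      exact hX j)
    rw [rad_of hM.pos hx] at h1
    exact h1
  · obtain ⟨l, X, hX, rfl⟩ := hY
    choose g hg hgX using fun j => TJ_div (hself x hx j) (hX j)
    choose N hN0 hN1 hN using fun j => Pq_all (hg j)
    set Y0 : ∀ j, Matrix (Fin (n j)) (Fin (n j)) ℂ := fun j => Yf (cm (Am (n j))) (Hc (n j) (Q j)) (1 - x () ^ M) with hY0
    have hev : ∀ (t : ℂ) (j : Fin r) (a b : Fin (n j)),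
        ((((Y0 j).map Polynomial.C * N j * (Ω j).map Polynomial.C) : Matrix (Fin (n j)) (Fin (n j)) (Polynomial ℂ)) a b).eval t =
          (Y0 j * (N j).map (Polynomial.eval t) * Ω j) a b := by
      intro t j a b
      have h1 : (((Y0 j).map Polynomial.C * N j * (Ω j).map Polynomial.C) : Matrix (Fin (n j)) (Fin (n j))
          (Polynomial ℂ)).map (Polynomial.eval t) = Y0 j * (N j).map (Polynomial.eval t) * Ω j := by
        rw [map_mul_eval, map_mul_eval, map_C_eval, map_C_eval]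
      exact congrFun (congrFun h1 a) b
    refine ⟨ptn (Polynomial.C (Complex.log (1 - x () ^ M)) + Polynomial.X * Polynomial.C (l - Complex.log (1 - x () ^ M)))
      (fun j => (Y0 j).map Polynomial.C * N j * (Ω j).map Polynomial.C), ?_, ?_, fun t => ?_⟩
    · rintro (_ | ⟨j, a, b⟩)
      · simp [ptn, gn]
      · show ((((Y0 j).map Polynomial.C * N j * (Ω j).map Polynomial.C) : Matrix (Fin (n j)) (Fin (n j)) (Polynomial ℂ)) a b).eval 0 = _
        rw [hev, hN0, mul_one]
        rfl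
    · rintro (_ | ⟨j, a, b⟩)
      · simp [ptn]
      · show ((((Y0 j).map Polynomial.C * N j * (Ω j).map Polynomial.C) : Matrix (Fin (n j)) (Fin (n j)) (Polynomial ℂ)) a b).eval 1 = _
        rw [hev, hN1, hgX]
        rfl
    · refine ⟨(Polynomial.C (Complex.log (1 - x () ^ M)) + Polynomial.X * Polynomial.C (l - Complex.log (1 - x () ^ M))).eval t,
        fun j => Y0 j * (N j).map (Polynomial.eval t), fun j => TJ_mul (hself x hx j) (hN j t), ?_⟩
      funext v
      rcases v with _ | ⟨j, a, b⟩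
      · rfl
      · exact hev t j a b
  · choose e he using hM.int
    have hn : ∀ j, 0 < n j := fun j => by
      have := (hJ.q j).two
      omega
    set B : ℕ := ∑ j, (e j).natAbs with hB
    have hBe : ∀ j, (e j).natAbs ≤ B := fun j => Finset.single_le_sum (f := fun j => (e j).natAbs)
      (fun _ _ => Nat.zero_le _) (Finset.mem_univ j)
    have hBe' : ∀ j, 0 ≤ (B : ℤ) - e j := fun j => by
      have := hBe j
      omega
    have he0 : ∀ j, QD (n j) (Q j) → e j = 0 := by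
      intro j hj
      have h1 := he j
      rw [QD_tr hj, mul_zero] at h1
      exact_mod_cast h1
    refine ⟨MvPolynomial.X () ^ B, pow_ne_zero _ (MvPolynomial.X_ne_zero _), fun x0 hx0 hc Y0 hY0 => ?_⟩
    obtain ⟨l, X0, hX0, rfl⟩ := hY0
    have hv0 : x0 () ≠ 0 := Complex.slitPlane_ne_zero hx0.2.1
    -- the section
    set D : ℂ → ∀ j, Matrix (Fin (n j)) (Fin (n j)) ℂ := fun v j =>
      Matrix.diagonal fun c => if c = ⟨0, hn j⟩ then (v / x0 ()) ^ (-e j) else 1 with hD
    have hDv : ∀ (v : ℂ) (j : Fin r) (a b : Fin (n j)), (X0 j * D v j * Ω j) a b = (X0 j * Ω j) a b +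
        ((v / x0 ()) ^ (-e j) - 1) * (X0 j a ⟨0, hn j⟩ * Ω j ⟨0, hn j⟩ b) := by
      intro v j a b
      rw [Matrix.mul_apply, Matrix.mul_apply]
      have h1 : ∀ c, (X0 j * D v j) a c * Ω j c b = X0 j a c * Ω j c b +
          if c = ⟨0, hn j⟩ then ((v / x0 ()) ^ (-e j) - 1) * (X0 j a ⟨0, hn j⟩ * Ω j ⟨0, hn j⟩ b) else 0 := by
        intro c
        rw [hD]
        simp only [Matrix.mul_diagonal]
        by_cases h : c = ⟨0, hn j⟩
        · subst h
          rw [if_pos rfl, if_pos rfl]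
          ring
        · rw [if_neg h, if_neg h]
          ring
      simp only [h1, Finset.sum_add_distrib, Finset.sum_ite_eq', Finset.mem_univ, if_true]
    have hDT : ∀ x ∈ V1 M, ∀ j, X0 j * D (x ()) j ∈ TJ (n j) (Q j) (M * Complex.log (x ())) := by
      intro x hx j
      have hv : x () ≠ 0 := Complex.slitPlane_ne_zero hx.2.1
      constructor
      · rw [Matrix.det_mul, (hX0 j).1, exp_v (he j) hv0, exp_v (he j) hv, hD, Matrix.det_diagonal,
          Finset.prod_ite_eq' Finset.univ, if_pos (Finset.mem_univ _), div_zpow, mul_div_cancel₀]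
        exact zpow_ne_zero _ hv0
      · intro hj
        have h1 : D (x ()) j = 1 := by
          rw [hD]
          simp only [he0 j hj, neg_zero, zpow_zero, ite_self]
          exact Matrix.diagonal_one
        rw [h1, mul_one]
        exact (hX0 j).2 hj
    refine ⟨fun s => s.elim (MvPolynomial.C l * MvPolynomial.X () ^ B) fun q =>
      MvPolynomial.C ((X0 q.1 * Ω q.1) q.2.1 q.2.2) * MvPolynomial.X () ^ B +
      (MvPolynomial.C (x0 () ^ e q.1) * MvPolynomial.X () ^ ((B : ℤ) - e q.1).toNat - MvPolynomial.X () ^ B) *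
        MvPolynomial.C (X0 q.1 q.2.1 ⟨0, hn q.1⟩ * Ω q.1 ⟨0, hn q.1⟩ q.2.2), ?_⟩
    have hval : ∀ x ∈ V1 M, ∀ s : Vn n, MvPolynomial.eval x (s.elim (MvPolynomial.C l * MvPolynomial.X () ^ B) fun q =>
        MvPolynomial.C ((X0 q.1 * Ω q.1) q.2.1 q.2.2) * MvPolynomial.X () ^ B +
        (MvPolynomial.C (x0 () ^ e q.1) * MvPolynomial.X () ^ ((B : ℤ) - e q.1).toNat - MvPolynomial.X () ^ B) *
          MvPolynomial.C (X0 q.1 q.2.1 ⟨0, hn q.1⟩ * Ω q.1 ⟨0, hn q.1⟩ q.2.2)) /
        MvPolynomial.eval x (MvPolynomial.X () ^ B) = ptn l (fun j => X0 j * D (x ()) j * Ω j) s := by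
      intro x hx s
      have hv : x () ≠ 0 := Complex.slitPlane_ne_zero hx.2.1
      have hvB : x () ^ B ≠ 0 := pow_ne_zero _ hv
      rw [map_pow, MvPolynomial.eval_X, div_eq_iff hvB]
      rcases s with _ | ⟨j, a, b⟩
      · simp [ptn]
      · simp only [ptn, Option.elim_some, map_add, map_sub, map_mul, map_pow, MvPolynomial.eval_X, MvPolynomial.eval_C]
        rw [hDv]
        have h1 : x () ^ ((B : ℤ) - e j).toNat = x () ^ B * x () ^ (-e j) := by
          rw [← zpow_natCast, Int.toNat_of_nonneg (hBe' j), sub_eq_add_neg, zpow_add₀ hv, zpow_natCast]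
        have h2 : (x () / x0 ()) ^ (-e j) = x () ^ (-e j) * x0 () ^ e j := by
          rw [div_zpow, zpow_neg (x0 ()), div_inv_eq_mul]
        rw [h1, h2]
        ring
    refine ⟨fun x hx _ => ?_, fun s => ?_⟩
    · refine ⟨l, fun j => X0 j * D (x ()) j, hDT x hx, ?_⟩
      funext s
      exact hval x hx s
    · rw [hval x0 hx0 s]
      have h1 : ∀ j, D (x0 ()) j = 1 := by
        intro j
        rw [hD]
        simp only [div_self hv0, _root_.one_zpow, ite_self]
        exact Matrix.diagonal_one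
      simp only [h1, mul_one]

/-- analyticity -/
theorem gn_an {M : ℕ} (hJ : JT n Q W) (v : Vn n) : AnalyticOnNhd ℂ (gn n Q M Ω v) (V1 M) := by
  intro x hx
  let L : (Unit → ℂ) →L[ℂ] (Unit → ℂ) := ContinuousLinearMap.id ℂ _
  have h1 : AnalyticAt ℂ (fun x : Unit → ℂ => fun _ : Unit => 1 - x () ^ M) x := by
    refine AnalyticAt.pi fun _ => ?_
    let L : (Unit → ℂ) →L[ℂ] ℂ := ContinuousLinearMap.proj (R := ℂ) (φ := fun _ : Unit => ℂ) ()
    exact analyticAt_const.sub ((L.analyticAt x).pow M)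
  exact AnalyticAt.comp (g := fn n Q Ω v) (f := fun x : Unit → ℂ => fun _ : Unit => 1 - x () ^ M)
    (fn_an Ω hJ v _ hx.1) h1

end

end Run7.h309.JP
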