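import Pool.Agent.Run7.h309.JP.Kum

/-!
# Joint hypergeometric families with reflections at all points `z = 1 - v ^ M`, `v` in a number field
-/

set_option autoImplicit false
set_option linter.unusedSectionVars false
set_option linter.unusedVariables false

open Filter Topology Matrix NumberField

namespace Run7.h309.JP

open Pool.Agent.Y119.HY (Am Jm cm E Hf Hc Yf)
open Pool.Agent.Run7.h225.HG
open Run7.h893.HO
open Pool.Agent.Y890.MV
open Pool.Agent.Y124 (Cov)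

variable {k : ℕ} {r : Fin k → ℕ} {n : ∀ i, Fin (r i) → ℕ} {Q : ∀ i, Fin (r i) → Polynomial ℚ}
  {W : ∀ i j, Matrix (Fin (n i j)) (Fin (n i j)) (PowerSeries ℚ)} {M : Fin k → ℕ}

/-- the domain of the `v` -/
def Vk (M : Fin k → ℕ) : Set ((Σ _ : Fin k, Unit) → ℂ) := USig (X' := fun _ : Fin k => Unit) fun i => V1 (M i)

/-- the radicals -/
noncomputable def radk (M : Fin k → ℕ) (x : (Σ _ : Fin k, Unit) → ℂ) : (Σ _ : Fin k, Unit) → ℂ :=
  fun q => rad (M q.1) (x q)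

lemma Vk_eq (hM : ∀ i, 0 < M i) : Vk M = radk M '' Uk k := by
  ext x
  constructor
  · intro hx
    refine ⟨fun q => 1 - x q ^ M q.1, fun i => (hx i).1, ?_⟩
    funext ⟨i, u⟩
    exact rad_of (hM i) (hx i)
  · rintro ⟨z, hz, rfl⟩ i
    exact rad_mem (hM i) (hz i)

lemma radk_cont : ContinuousOn (radk M) (Uk k) := by
  refine continuousOn_pi.2 fun q => ?_
  exact (rad_cont (M q.1)).comp (continuous_apply q).continuousOn fun x hx => hx q.1

lemma Vk_pre (hM : ∀ i, 0 < M i) : IsPreconnected (Vk M) := by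
  rw [Vk_eq hM]
  exact (Uk_pre k).image _ radk_cont

lemma Vk_open : IsOpen (Vk M) := USig_open fun i => by
  have : V1 (M i) = (fun x : Unit → ℂ => x ()) ⁻¹' VM (M i) := rfl
  rw [this]
  exact (isOpen_VM (M i)).preimage (continuous_apply _)

lemma Vk_ne (hM : ∀ i, 0 < M i) : (Vk M).Nonempty := by
  rw [Vk_eq hM]
  exact (Uk_ne k).image _

lemma reg_compact (w : ℕ) : IsCompact {z : ℂ | Reg w z} := by
  refine Metric.isCompact_of_isClosed_isBounded ?_ ?_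
  · have h1 : {z : ℂ | Reg w z} = {z : ℂ | ‖z‖ + 1 / w ≤ 1} ∩ ⋂ (t : ℝ) (_ : t ≤ 0), {z : ℂ | (1 : ℝ) / w ≤ ‖z - t‖} := by
      ext z
      simp only [Set.mem_inter_iff, Set.mem_iInter]
      rfl
    rw [h1]
    refine (isClosed_le (continuous_norm.add continuous_const) continuous_const).inter ?_
    refine isClosed_iInter fun t => isClosed_iInter fun _ => ?_
    exact isClosed_le continuous_const (continuous_id.sub continuous_const).norm
  · refine (Metric.isBounded_closedBall (x := (0 : ℂ)) (r := 1)).subset fun z hz => ?_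
    rw [mem_closedBall_zero_iff]
    have h1 : ‖z‖ + 1 / (w : ℝ) ≤ 1 := hz.1
    have h2 : (0 : ℝ) ≤ 1 / w := by positivity
    linarith

/-- the compact sets -/
noncomputable def Lk (M : Fin k → ℕ) (w : ℕ) : Set ((Σ _ : Fin k, Unit) → ℂ) := radk M '' {x | ∀ q, Reg w (x q)}

lemma regk_sub {w : ℕ} (hw : 0 < w) : {x : (Σ _ : Fin k, Unit) → ℂ | ∀ q, Reg w (x q)} ⊆ Uk k := fun x hx =>
  innerM_sub _ hw (reg_inner hw hx)

lemma Lk_compact {w : ℕ} (hw : 0 < w) : IsCompact (Lk M w) := by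
  refine IsCompact.image_of_continuousOn ?_ (radk_cont.mono (regk_sub hw))
  have h1 : {x : (Σ _ : Fin k, Unit) → ℂ | ∀ q, Reg w (x q)} = Set.pi Set.univ fun _ => {z : ℂ | Reg w z} := by
    ext x
    simp only [Set.mem_pi, Set.mem_univ, true_implies]
    rfl
  rw [h1]
  exact isCompact_univ_pi fun _ => reg_compact w

lemma Lk_sub (hM : ∀ i, 0 < M i) {w : ℕ} (hw : 0 < w) : Lk M w ⊆ Vk M := by
  rw [Vk_eq hM]
  exact Set.image_mono (regk_sub hw)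

lemma mem_Lk (hM : ∀ i, 0 < M i) {w : ℕ} {x : (Σ _ : Fin k, Unit) → ℂ}
    (hx : ∀ q, Reg w (1 - x q ^ M q.1) ∧ |(x q).arg| < Real.pi / M q.1) (hne : ∀ q, x q ≠ 0) : x ∈ Lk M w := by
  refine ⟨fun q => 1 - x q ^ M q.1, fun q => (hx q).1, ?_⟩
  funext q
  show rad (M q.1) (1 - x q ^ M q.1) = x q
  have hM' : (M q.1 : ℂ) ≠ 0 := by exact_mod_cast (hM q.1).ne'
  unfold rad
  rw [sub_sub_cancel, log_pow_M (hM q.1) (hne q) (hx q).2, mul_div_cancel_left₀ _ hM', Complex.exp_log (hne q)]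

section

variable (Ω : ∀ i j, Matrix (Fin (n i j)) (Fin (n i j)) ℂ)

/-- the functions -/
noncomputable def gk (Q : ∀ i, Fin (r i) → Polynomial ℚ) (M : Fin k → ℕ) : Va n → ((Σ _ : Fin k, Unit) → ℂ) → ℂ :=
  fSig (X' := fun _ : Fin k => Unit) fun i => gn (n i) (Q i) (M i) (Ω i)

/-- the torsor -/
def Sk (Q : ∀ i, Fin (r i) → Polynomial ℚ) (M : Fin k → ℕ) : ((Σ _ : Fin k, Unit) → ℂ) → Set (Va n → ℂ) :=
  TSig (X' := fun _ : Fin k => Unit) fun i => Gn (n i) (Q i) (M i) (Ω i)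

lemma mem_Sk {x : (Σ _ : Fin k, Unit) → ℂ} {Y : Va n → ℂ} : Y ∈ Sk Ω Q M x ↔
    ∃ (l : Fin k → ℂ) (X : ∀ i j, Matrix (Fin (n i j)) (Fin (n i j)) ℂ),
      (∀ i j, X i j ∈ TJ (n i j) (Q i j) (M i * Complex.log (x ⟨i, ()⟩))) ∧ Y = pa l fun i j => X i j * Ω i j := by
  constructor
  · intro h
    choose l X hX hY using h
    refine ⟨l, X, hX, ?_⟩
    funext ⟨i, v⟩
    exact congrFun (hY i) v
  · rintro ⟨l, X, hX, rfl⟩ i
    exact ⟨l i, X i, hX i, rfl⟩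

theorem torM_Sk (hJ : ∀ i, JT (n i) (Q i) (W i)) (hM : ∀ i, AM (n i) (Q i) (M i)) :
    TorM (Vk M) (gk Ω Q M) (Sk Ω Q M) :=
  TorM.sig fun i => torM_kum (Ω i) (hJ i) (hM i)

/-- the exceptional points -/
def ExcV (Q : ∀ i, Fin (r i) → Polynomial ℚ) (M : Fin k → ℕ) (w : ℕ) (K : Type) [Field K] [NumberField K] (io : K →+* ℂ)
    (ξ : Fin w → ℂ) (T : ℝ) : Set (Fin k → K) :=
  {s | (∀ i, Pool.Agent.Y120.HtLe K T (s i)) ∧
    (∀ i, Reg w (1 - io (s i) ^ M i) ∧ |(io (s i)).arg| < Real.pi / M i) ∧ ∃ P ∈ RelSet n w K io ξ T,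
    MvPolynomial.eval (pa (fun i => Complex.log (1 - io (s i) ^ M i))
      fun i j => Yf (cm (Am (n i j))) (Hc (n i j) (Q i j)) (1 - io (s i) ^ M i) * Ω i j) P = 0 ∧
    ∃ (l : Fin k → ℂ) (X : ∀ i j, Matrix (Fin (n i j)) (Fin (n i j)) ℂ),
      (∀ i j, X i j ∈ TJ (n i j) (Q i j) (M i * Complex.log (io (s i)))) ∧
      MvPolynomial.eval (pa l fun i j => X i j * Ω i j) P ≠ 0}

set_option maxHeartbeats 4000000 in
/-- **All points of number fields.** -/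
theorem all_points_kum (hk : 1 ≤ k) (hJ : ∀ i, JT (n i) (Q i) (W i)) (hM : ∀ i, AM (n i) (Q i) (M i)) :
    ∃ (ω : ℝ → ℕ) (T₀ : ℝ), Tendsto ω atTop atTop ∧ Monotone ω ∧ ∀ T, T₀ ≤ T → 0 < ω T ∧
      ∀ (K : Type) [Field K] [NumberField K], Module.finrank ℚ K ≤ ω T → ∀ (io : K →+* ℂ) (ξ : Fin (ω T) → ℂ),
        Cov ⌊T ^ ((ω T : ℝ)⁻¹)⌋₊ ⌊T ^ ((ω T : ℝ)⁻¹)⌋₊ ((fun (s : Fin k → K) j => io (s j)) '' ExcV Ω Q M (ω T) K io ξ T) ∧
        (ExcV Ω Q M (ω T) K io ξ T).Finite ∧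
        ((ExcV Ω Q M (ω T) K io ξ T).ncard : ℝ) ≤
          T ^ ((ω T : ℝ)⁻¹) * ({x : K | Pool.Agent.Y120.HtLe K T x}.ncard : ℝ) ^ (k - 1) := by
  classical
  have hM0 : ∀ i, 0 < M i := fun i => (hM i).pos
  have : Nonempty (Fin k) := ⟨⟨0, hk⟩⟩
  have : Nonempty (Σ _ : Fin k, Unit) := ⟨⟨⟨0, hk⟩, ()⟩⟩
  have hmain := omega_gen (X := Fin k) (fun w => Fin w → ℂ) (fun w K _ _ io ξ T => ExcV Ω Q M w K io ξ T)
    (fun w K _ _ io ξ T s hs => hs.1) ?_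
  · simpa only [Fintype.card_fin] using hmain
  intro w ε hε
  rcases Nat.eq_zero_or_pos w with hw | hw
  · refine ⟨0, 0, 2, le_rfl, le_rfl, ?_⟩
    intro K _ _ hK
    have h1 : 0 < Module.finrank ℚ K := Module.finrank_pos
    omega
  have hf : ∀ q, AnalyticOnNhd ℂ (gk Ω Q M q) (Vk M) :=
    fun q => fSig_an (X' := fun _ : Fin k => Unit) (fun i v => gn_an (M := M i) (Ω i) (hJ i) v) q
  obtain ⟨D, C, T₀, hC, hT₀, H⟩ := excT_cov (Vk_pre hM0) Vk_open (Vk_ne hM0) hf (torM_Sk Ω hJ hM) (Lk M w)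
    (Lk_compact hw) (Lk_sub hM0 hw) w (Fin w) w (w : ℝ) ε hε
  refine ⟨D, C, T₀, hC, hT₀, fun K _ _ hK io ξ T hT0 => ?_⟩
  refine cov_reindex (fun q : (Σ _ : Fin k, Unit) => q.1) (fun p q h => Sigma.ext h HEq.rfl) (H K hK io ξ T hT0) ?_
  rintro _ ⟨s, ⟨hs1, hs2, P, ⟨hP1, hP2⟩, hP3, l, X, hX, hP4⟩, rfl⟩
  have hne : ∀ i, io (s i) ≠ 0 := by
    intro i h0
    have h1 := (hs2 i).1.1
    rw [h0, zero_pow (hM0 i).ne', sub_zero, norm_one] at h1
    have : (0 : ℝ) < 1 / w := by positivity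
    linarith
  refine ⟨fun q => s q.1, ⟨fun q => hs1 q.1, mem_Lk hM0 (fun q => hs2 q.1) fun q => hne q.1, ?_⟩, rfl⟩
  choose c hc hcP using hP2
  have hev : ∀ Y : Va n → ℂ, ∑ l : Va n → Fin (w + 1), (∑ a, ξ a * io (c (Finsupp.equivFunOnFinite.symm
      fun v => (l v : ℕ)) a : K)) * ∏ v, Y v ^ (l v : ℕ) = MvPolynomial.eval Y P := by
    intro Y
    rw [eval_box P w hP1 Y]
    refine Finset.sum_congr rfl fun l _ => ?_
    rw [hcP]
  refine ⟨fun l a => c (Finsupp.equivFunOnFinite.symm fun v => (l v : ℕ)) a, fun l a φ => ?_, ?_, fun hcon => hP4 ?_⟩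
  · rw [Real.rpow_natCast]
    exact hc _ a φ
  · exact (hev _).trans hP3
  · have h2 := hcon _ ((mem_Sk Ω (Q := Q) (M := M) (x := fun q => io (s q.1))).2 ⟨l, X, hX, rfl⟩)
    exact (hev _).symm.trans h2

/-- **Functional relations.** -/
theorem all_functions_kum (hJ : ∀ i, JT (n i) (Q i) (W i)) (hM : ∀ i, AM (n i) (Q i) (M i))
    (P : MvPolynomial (Va n ⊕ Fin k) ℂ)
    (hP : ∀ v : Fin k → ℂ, (∀ i, v i ∈ VM (M i)) → MvPolynomial.eval (Sum.elim (pa (fun i => Complex.log (1 - v i ^ M i))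
      fun i j => Yf (cm (Am (n i j))) (Hc (n i j) (Q i j)) (1 - v i ^ M i) * Ω i j) v) P = 0)
    (v l : Fin k → ℂ) (hv : ∀ i, v i ∈ VM (M i)) (X : ∀ i j, Matrix (Fin (n i j)) (Fin (n i j)) ℂ)
    (hX : ∀ i j, X i j ∈ TJ (n i j) (Q i j) (M i * Complex.log (v i))) :
    MvPolynomial.eval (Sum.elim (pa l fun i j => X i j * Ω i j) v) P = 0 := by
  set ρ : Fin k → (Σ _ : Fin k, Unit) := fun i => ⟨i, ()⟩ with hρ
  set P' : MvPolynomial (Va n ⊕ (Σ _ : Fin k, Unit)) ℂ := MvPolynomial.rename (Sum.map id ρ) P with hP'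
  have hev : ∀ (x : (Σ _ : Fin k, Unit) → ℂ) (Y : Va n → ℂ), evX x Y (iter _ _ P') =
      MvPolynomial.eval (Sum.elim Y fun i => x (ρ i)) P := by
    intro x Y
    rw [evX_iter, hP', MvPolynomial.eval_rename]
    congr 1
    congr 1
    funext v
    rcases v with v | v <;> rfl
  have h1 := (torM_Sk Ω hJ hM).inv (iter _ _ P') (fun x hx => by
    rw [evM_eq, hev]
    exact hP (fun i => x (ρ i)) fun i => hx i) (fun q => v q.1) (fun i => hv i) _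
    ((mem_Sk Ω (Q := Q) (M := M) (x := fun q => v q.1)).2 ⟨l, X, hX, rfl⟩)
  rw [hev] at h1
  exact h1

end

end Run7.h309.JP
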