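import Pool.Agent.Run7.h225.HG.JA
import Pool.Agent.Run7.h309.JP.GJ
import Pool.Agent.Y890.MV.TorExc

/-!
# Joint hypergeometric families over the slit unit disc: the relations are those of the torsor
-/

set_option autoImplicit false
set_option linter.unusedSectionVars false
set_option linter.unusedVariables false

open Filter Topology Matrix

namespace Run7.h309.JP

open Pool.Agent.Y119.HY (Am Jm cm E Hf Hc Yf Gal Rel Ac_nil QD ev evp pt eval_evp map_C_eval map_mul_eval)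
open Pool.Agent.Run7.h225.HG
open Run7.h893.HO
open Pool.Agent.Y890.MV

/-! ### the slit disc -/

/-- the slit unit disc -/
def DS : Set ℂ := {z | ‖z‖ < 1 ∧ z ∈ Complex.slitPlane}

lemma DS_eq : DS = Metric.ball (0 : ℂ) 1 ∩ Complex.slitPlane := by
  ext z
  rw [Set.mem_inter_iff, Metric.mem_ball, dist_zero_right]
  rfl

lemma isOpen_DS : IsOpen DS := by
  rw [DS_eq]
  exact Metric.isOpen_ball.inter Complex.isOpen_slitPlane

lemma real_DS {x : ℝ} (h0 : 0 < x) (h1 : x < 1) : (x : ℂ) ∈ DS := by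
  refine ⟨?_, ?_⟩
  · rw [Complex.norm_real, Real.norm_of_nonneg h0.le]
    exact h1
  · left
    rw [Complex.ofReal_re]
    exact h0

lemma star_DS : StarConvex ℝ ((1 / 2 : ℝ) : ℂ) DS := by
  rw [DS_eq]
  refine StarConvex.inter ((convex_ball (0 : ℂ) 1).starConvex ?_) (Complex.starConvex_ofReal_slitPlane (by norm_num))
  rw [Metric.mem_ball, dist_zero_right, Complex.norm_real]
  norm_num

lemma preconn_DS : IsPreconnected DS :=
  (star_DS.isPathConnected (real_DS (x := 1 / 2) (by norm_num) (by norm_num))).isConnected.isPreconnected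

/-- the domain of one variable -/
def U1 : Set (Unit → ℂ) := {x | x () ∈ DS}

/-! ### one list of families -/

variable {r : ℕ} {n : Fin r → ℕ} {Q : Fin r → Polynomial ℚ} {W : ∀ j, Matrix (Fin (n j)) (Fin (n j)) (PowerSeries ℚ)}

/-- the variables -/
abbrev Vn (n : Fin r → ℕ) : Type := Option (Σ j : Fin r, Fin (n j) × Fin (n j))

/-- the coordinates -/
def ptn {R : Type} (l : R) (X : ∀ j, Matrix (Fin (n j)) (Fin (n j)) R) (v : Vn n) : R :=
  v.elim l fun x => X x.1 x.2.1 x.2.2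

/-- the functions -/
noncomputable def fn (n : Fin r → ℕ) (Q : Fin r → Polynomial ℚ) (Ω : ∀ j, Matrix (Fin (n j)) (Fin (n j)) ℂ) (v : Vn n)
    (x : Unit → ℂ) : ℂ :=
  ptn (Complex.log (x ())) (fun j => Yf (cm (Am (n j))) (Hc (n j) (Q j)) (x ()) * Ω j) v

/-- the torsor -/
def Tn (n : Fin r → ℕ) (Q : Fin r → Polynomial ℚ) (Ω : ∀ j, Matrix (Fin (n j)) (Fin (n j)) ℂ) (_ : Unit → ℂ) :
    Set (Vn n → ℂ) :=
  {Y | ∃ (l : ℂ) (X : ∀ j, Matrix (Fin (n j)) (Fin (n j)) ℂ), (∀ j, GJ (n j) (Q j) (X j)) ∧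
    Y = ptn l fun j => X j * Ω j}

/-- the index in the block matrix -/
def ei (n : Fin r → ℕ) (j : Fin r) (a : Fin (n j)) : Fin (∑ j, n j) := finSigmaFinEquiv ⟨j, a⟩

lemma blk_ei (X : ∀ j, Matrix (Fin (n j)) (Fin (n j)) ℂ) (j : Fin r) (a b : Fin (n j)) :
    blk n ℂ X (ei n j a) (ei n j b) = X j a b := by
  unfold ei
  rw [BLK.blk_apply, Equiv.symm_apply_apply, Equiv.symm_apply_apply, Matrix.blockDiagonal'_apply_eq]

/-- the substitution -/
noncomputable def Phi (Ω : ∀ j, Matrix (Fin (n j)) (Fin (n j)) ℂ) :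
    MvPolynomial (Vn n) (MvPolynomial Unit ℂ) →+* MvPolynomial (Pool.Agent.Y119.HY.Vr (∑ j, n j)) ℂ :=
  MvPolynomial.eval₂Hom (MvPolynomial.eval₂Hom MvPolynomial.C (fun _ => MvPolynomial.X none))
    (fun v => v.elim (MvPolynomial.X (some none)) fun x =>
      ∑ c, MvPolynomial.X (some (some (ei n x.1 x.2.1, ei n x.1 c))) * MvPolynomial.C (Ω x.1 c x.2.2))

lemma ev_Phi (Ω : ∀ j, Matrix (Fin (n j)) (Fin (n j)) ℂ) (p : MvPolynomial (Vn n) (MvPolynomial Unit ℂ)) (z L : ℂ)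
    (X : ∀ j, Matrix (Fin (n j)) (Fin (n j)) ℂ) :
    ev (Phi Ω p) z L (blk n ℂ X) = evX (fun _ => z) (ptn L fun j => X j * Ω j) p := by
  have h1 : (MvPolynomial.eval (pt z L (blk n ℂ X))).comp (Phi Ω) =
      MvPolynomial.eval₂Hom (MvPolynomial.eval (fun _ : Unit => z)) (ptn L fun j => X j * Ω j) := by
    refine MvPolynomial.ringHom_ext (fun a => ?_) ?_
    · have h2 : ((MvPolynomial.eval (pt z L (blk n ℂ X))).comp (Phi Ω)).comp MvPolynomial.C =
          MvPolynomial.eval (fun _ : Unit => z) := by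
        refine MvPolynomial.ringHom_ext (fun b => ?_) fun i => ?_
        · simp [Phi]
        · simp [Phi, pt]
      have h3 := congrArg (fun g => g a) h2
      simp only [RingHom.comp_apply] at h3
      rw [RingHom.comp_apply, h3]
      exact (MvPolynomial.eval₂Hom_C _ _ _).symm
    · rintro (_ | ⟨j, a, b⟩)
      · simp [Phi, pt, ptn]
      · simp [Phi, pt, ptn, Matrix.mul_apply, blk_ei]
  exact congrArg (fun g => g p) h1

section

variable (Ω : ∀ j, Matrix (Fin (n j)) (Fin (n j)) ℂ)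

lemma Yf_GJ {m : ℕ} {P : Polynomial ℚ} (hP : QG m P) (h0 : P.coeff (m - 1) = 0) {z : ℂ} (hz : ‖z‖ < 1) :
    GJ m P (Yf (cm (Am m)) (Hc m P) z) := by
  have h1 := TJ_mul (Hf_mem hP hz) (E_GJ hP (Complex.log z))
  refine ⟨?_, h1.2⟩
  have h2 := h1.1
  rw [h0, Rat.cast_zero, neg_zero, zero_mul, Complex.exp_zero] at h2
  exact h2

lemma GJ_TJ {m : ℕ} {P : Polynomial ℚ} (h0 : P.coeff (m - 1) = 0) {X : Matrix (Fin m) (Fin m) ℂ} (hX : GJ m P X) (l : ℂ) :
    X ∈ TJ m P l := by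
  refine ⟨?_, hX.2⟩
  rw [hX.1, h0, Rat.cast_zero, neg_zero, zero_mul, Complex.exp_zero]

/-- the relations hold on the torsor -/
theorem inv_n (hJ : JT n Q W) (h0 : ∀ j, (Q j).coeff (n j - 1) = 0) (p : MvPolynomial (Vn n) (MvPolynomial Unit ℂ))
    (hp : ∀ x ∈ U1, evM (fn n Q Ω) x p = 0) (z : ℂ) (hz : ‖z‖ < 1) (l : ℂ) (X : ∀ j, Matrix (Fin (n j)) (Fin (n j)) ℂ)
    (hX : ∀ j, GJ (n j) (Q j) (X j)) : evX (fun _ => z) (ptn l fun j => X j * Ω j) p = 0 := by
  have hrel : Phi Ω p ∈ Rel (YJ n Q) := by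
    intro x hx hx1
    rw [YJ_eq hJ.toJF, ev_Phi]
    exact hp (fun _ => (x : ℂ)) (real_DS hx hx1)
  have hstep : ∀ x : ℝ, 0 < x → x < 1 → ev (Phi Ω p) (x : ℂ) (Complex.log x) (blk n ℂ X) = 0 := by
    intro x hx hx1
    have hl : Complex.exp (Complex.log (1 - (x : ℂ))) = 1 - (x : ℂ) := by
      refine Complex.exp_log ?_
      intro h
      have : (1 - x : ℝ) = 0 := by exact_mod_cast h
      linarith
    obtain ⟨g, hg, hgX⟩ := tor_joint hJ hx hx1 hl (fun j => GJ_TJ (h0 j) (hX j) _) 0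
    have h1 := hg _ hrel x hx hx1
    rw [YJ_eq hJ.toJF, ← map_mul] at h1
    refine (congrArg (ev (Phi Ω p) (x : ℂ) (Complex.log x)) (congrArg (blk n ℂ) ?_)).trans h1
    funext j
    rw [Pi.mul_apply, hgX j, Pool.Agent.Y119.HY.E_zero Ac_nil, mul_one]
  have h1 : ∀ w ∈ Metric.ball (0 : ℂ) 1, evp (Phi Ω p) (Polynomial.C w) Polynomial.X ((blk n ℂ X).map Polynomial.C) = 0 := by
    refine Pool.Agent.Y119.HY.PA.log_zero (f := fun w => evp (Phi Ω p) (Polynomial.C w) Polynomial.X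
      ((blk n ℂ X).map Polynomial.C)) ?_ fun y hy hy1 => ?_
    · refine Pool.Agent.Y119.HY.PA.aeval (fun o => ?_) _
      rcases o with _ | _ | x
      · exact Pool.Agent.Y119.HY.PA.ofFun analyticOnNhd_id
      · exact Pool.Agent.Y119.HY.PA.const _
      · exact Pool.Agent.Y119.HY.PA.const _
    · rw [eval_evp, Polynomial.eval_C, Polynomial.eval_X, Complex.ofReal_log hy.le, map_C_eval]
      exact hstep y hy hy1
  have h2 := congrArg (Polynomial.eval l) (h1 z (by rw [Metric.mem_ball, dist_zero_right]; exact hz))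
  rw [eval_evp, Polynomial.eval_C, Polynomial.eval_X, Polynomial.eval_zero, map_C_eval, ev_Phi] at h2
  exact h2

/-- **One list of families.** -/
theorem torM_one (hJ : JT n Q W) (h0 : ∀ j, (Q j).coeff (n j - 1) = 0) : TorM U1 (fn n Q Ω) (Tn n Q Ω) := by
  classical
  refine ⟨fun x hx => ?_, fun p hp x hx Y hY => ?_, fun x hx Y hY => ?_, ?_⟩
  · exact ⟨Complex.log (x ()), fun j => Yf (cm (Am (n j))) (Hc (n j) (Q j)) (x ()),
      fun j => Yf_GJ (hJ.q j) (h0 j) hx.1, rfl⟩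
  · obtain ⟨l, X, hX, rfl⟩ := hY
    exact inv_n Ω hJ h0 p hp (x ()) hx.1 l X hX
  · obtain ⟨l, X, hX, rfl⟩ := hY
    have hg := fun j => TJ_div (GJ_TJ (h0 j) (Yf_GJ (hJ.q j) (h0 j) hx.1) 0) (GJ_TJ (h0 j) (hX j) 0)
    choose g hg hgX using hg
    choose M hM0 hM1 hM using fun j => Pq_all (hg j)
    set Y0 : ∀ j, Matrix (Fin (n j)) (Fin (n j)) ℂ := fun j => Yf (cm (Am (n j))) (Hc (n j) (Q j)) (x ()) with hY0
    have hev : ∀ (t : ℂ) (j : Fin r) (a b : Fin (n j)),
        ((((Y0 j).map Polynomial.C * M j * (Ω j).map Polynomial.C) : Matrix (Fin (n j)) (Fin (n j)) (Polynomial ℂ)) a b).eval t =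
          (Y0 j * (M j).map (Polynomial.eval t) * Ω j) a b := by
      intro t j a b
      have h1 : (((Y0 j).map Polynomial.C * M j * (Ω j).map Polynomial.C) : Matrix (Fin (n j)) (Fin (n j))
          (Polynomial ℂ)).map (Polynomial.eval t) = Y0 j * (M j).map (Polynomial.eval t) * Ω j := by
        rw [map_mul_eval, map_mul_eval, map_C_eval, map_C_eval]
      exact congrFun (congrFun h1 a) b
    refine ⟨ptn (Polynomial.C (Complex.log (x ())) + Polynomial.X * Polynomial.C (l - Complex.log (x ())))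
      (fun j => (Y0 j).map Polynomial.C * M j * (Ω j).map Polynomial.C), ?_, ?_, fun t => ?_⟩
    · rintro (_ | ⟨j, a, b⟩)
      · simp [ptn, fn]
      · show ((((Y0 j).map Polynomial.C * M j * (Ω j).map Polynomial.C) : Matrix (Fin (n j)) (Fin (n j)) (Polynomial ℂ)) a b).eval 0 = _
        rw [hev, hM0, mul_one]
        rfl
    · rintro (_ | ⟨j, a, b⟩)
      · simp [ptn]
      · show ((((Y0 j).map Polynomial.C * M j * (Ω j).map Polynomial.C) : Matrix (Fin (n j)) (Fin (n j)) (Polynomial ℂ)) a b).eval 1 = _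
        rw [hev, hM1, hgX]
        rfl
    · refine ⟨(Polynomial.C (Complex.log (x ())) + Polynomial.X * Polynomial.C (l - Complex.log (x ()))).eval t,
        fun j => Y0 j * (M j).map (Polynomial.eval t), fun j => GJ_mul (Yf_GJ (hJ.q j) (h0 j) hx.1) (hM j t), ?_⟩
      funext v
      rcases v with _ | ⟨j, a, b⟩
      · rfl
      · exact hev t j a b
  · refine ⟨1, one_ne_zero, fun x0 hx0 hc Y0 hY0 => ⟨fun s => MvPolynomial.C (Y0 s), fun x hx hcx => ?_, fun s => ?_⟩⟩
    · simp only [MvPolynomial.eval_C, map_one, div_one]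
      exact hY0
    · rw [MvPolynomial.eval_C, map_one, div_one]

/-- analyticity -/
theorem fn_an (hJ : JT n Q W) (v : Vn n) : AnalyticOnNhd ℂ (fn n Q Ω v) U1 := by
  have key : ∀ F : ℂ → ℂ, AnalyticOnNhd ℂ F DS → AnalyticOnNhd ℂ (fun x : Unit → ℂ => F (x ())) U1 := by
    intro F hF x hx
    let L : (Unit → ℂ) →L[ℂ] ℂ := ContinuousLinearMap.proj (R := ℂ) (φ := fun _ : Unit => ℂ) ()
    exact AnalyticAt.comp (g := F) (f := fun x => L x) (hF _ hx) (L.analyticAt x)
  have hlog : AnalyticOnNhd ℂ Complex.log DS := fun z hz => analyticAt_clog hz.2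
  rcases v with _ | ⟨j, a, b⟩
  · exact key _ hlog
  · refine key (fun z => (Yf (cm (Am (n j))) (Hc (n j) (Q j)) z * Ω j) a b) ?_
    intro z hz
    have hb : z ∈ Metric.ball (0 : ℂ) 1 := by
      rw [Metric.mem_ball, dist_zero_right]
      exact hz.1
    have hE : ∀ c d, AnalyticAt ℂ (fun z => E (cm (Am (n j))) (Complex.log z) c d) z := by
      intro c d
      unfold E
      simp only [Matrix.sum_apply, Matrix.smul_apply, smul_eq_mul]
      refine Finset.analyticAt_fun_sum _ fun i _ => ?_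
      exact (((hlog z hz).pow i).div_const).mul analyticAt_const
    simp only [Matrix.mul_apply, Yf]
    refine Finset.analyticAt_fun_sum _ fun c _ => AnalyticAt.mul (Finset.analyticAt_fun_sum _ fun d _ => ?_) analyticAt_const
    exact (Pool.Agent.Y119.HY.Hf_an (sol_c_g (hJ.q j)) Ac_nil _ _ z hb).mul (hE _ _)

end

end Run7.h309.JP
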